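import Mathlib

/-!
Counting functions whose graphs are disjoint from the graphs of given functions.
-/

set_option linter.unusedSectionVars false

namespace Pool.Agent.W964.Si

open Finset

/-- The number of functions that avoid given functions. -/
lemma avoid_count {β : Type} [DecidableEq β] (q d : ℕ) (hq : 1 ≤ q) (f : β → Fin q → Fin q)
    (hf : ∀ j j', j ≠ j' → (univ.filter (fun x => f j x = f j' x)).card ≤ d)
    (J : Finset β) (hk : 2 * (J.card * d) ≤ q) :
    ((univ.filter (fun g : Fin q → Fin q => ∀ j ∈ J, ∀ x, g x ≠ f j x)).card : ℝ) ≤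
      (q : ℝ) ^ q * Real.exp (-((J.card : ℝ) / 2)) := by
  have hqR : (1 : ℝ) ≤ q := by exact_mod_cast hq
  obtain ⟨D, hD⟩ : ∃ D : Fin q → ℕ, D = fun x => (J.image (fun j => f j x)).card := ⟨_, rfl⟩
  have hset : univ.filter (fun g : Fin q → Fin q => ∀ j ∈ J, ∀ x, g x ≠ f j x) =
      Fintype.piFinset (fun x => univ \ J.image (fun j => f j x)) := by
    ext g
    rw [Finset.mem_filter, Fintype.mem_piFinset]
    constructor
    · rintro ⟨_, h⟩ x
      rw [Finset.mem_sdiff]
      refine ⟨Finset.mem_univ _, ?_⟩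
      intro hx
      obtain ⟨j, hj, hjx⟩ := Finset.mem_image.1 hx
      exact h j hj x hjx.symm
    · intro h
      refine ⟨Finset.mem_univ _, ?_⟩
      intro j hj x hx
      have h1 := h x
      rw [Finset.mem_sdiff] at h1
      apply h1.2
      rw [Finset.mem_image]
      exact ⟨j, hj, hx.symm⟩
  rw [hset, Fintype.card_piFinset]
  have hDle : ∀ x, D x ≤ q := by
    intro x
    rw [hD]
    calc (J.image (fun j => f j x)).card ≤ (univ : Finset (Fin q)).card :=
          Finset.card_le_card (Finset.subset_univ _)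
      _ = q := by rw [Finset.card_univ, Fintype.card_fin]
  have hcard : ∀ x, ((univ \ J.image (fun j => f j x)).card : ℝ) = (q : ℝ) - D x := by
    intro x
    rw [Finset.card_sdiff_of_subset (Finset.subset_univ _), Finset.card_univ, Fintype.card_fin,
      Nat.cast_sub (by have := hDle x; rw [hD] at this; exact this), hD]
  push_cast
  have h1 : ∏ x : Fin q, ((univ \ J.image (fun j => f j x)).card : ℝ) ≤
      ∏ x : Fin q, ((q : ℝ) * Real.exp (-((D x : ℝ) / q))) := by
    apply Finset.prod_le_prod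
    · intro x _
      exact Nat.cast_nonneg _
    · intro x _
      rw [hcard]
      have h2 := Real.add_one_le_exp (-((D x : ℝ) / q))
      calc (q : ℝ) - D x = q * (-((D x : ℝ) / q) + 1) := by field_simp; ring
        _ ≤ q * Real.exp (-((D x : ℝ) / q)) := mul_le_mul_of_nonneg_left h2 (by linarith)
  refine h1.trans ?_
  rw [Finset.prod_mul_distrib, Finset.prod_const, Finset.card_univ, Fintype.card_fin,
    ← Real.exp_sum]
  apply mul_le_mul_of_nonneg_left _ (by positivity)
  apply Real.exp_le_exp.2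
  rw [Finset.sum_neg_distrib, neg_le_neg_iff, ← Finset.sum_div, le_div_iff₀ (by linarith)]
  -- the number of different values
  obtain ⟨U, hU⟩ : ∃ U : Fin q → Finset β, U = fun x => J.filter (fun j =>
    ∀ j' ∈ J, j' ≠ j → f j' x ≠ f j x) := ⟨_, rfl⟩
  have h3 : ∀ x, (U x).card ≤ D x := by
    intro x
    have h4 : ((U x).image (fun j => f j x)).card = (U x).card := by
      apply Finset.card_image_of_injOn
      intro j hj j' hj' h
      by_contra hne
      rw [hU] at hj hj'
      have h5 := (Finset.mem_filter.1 hj).2 j' (Finset.mem_filter.1 hj').1 (Ne.symm hne)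
      exact h5 h.symm
    rw [← h4, hD]
    apply Finset.card_le_card
    apply Finset.image_subset_image
    rw [hU]
    exact Finset.filter_subset _ _
  have h4 : ∑ x, (U x).card = ∑ j ∈ J, (univ.filter (fun x => ∀ j' ∈ J, j' ≠ j →
      f j' x ≠ f j x)).card := by
    rw [hU]
    simp only [Finset.card_filter]
    rw [Finset.sum_comm]
  have h5 : ∀ j ∈ J, q ≤ (univ.filter (fun x => ∀ j' ∈ J, j' ≠ j → f j' x ≠ f j x)).card +
      J.card * d := by
    intro j hj
    have h6 : (univ : Finset (Fin q)) ⊆ (univ.filter (fun x => ∀ j' ∈ J, j' ≠ j →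
        f j' x ≠ f j x)) ∪ (J.erase j).biUnion (fun j' => univ.filter (fun x => f j' x = f j x)) := by
      intro x _
      rw [Finset.mem_union]
      by_cases hx : ∀ j' ∈ J, j' ≠ j → f j' x ≠ f j x
      · left
        rw [Finset.mem_filter]
        exact ⟨Finset.mem_univ _, hx⟩
      · right
        push Not at hx
        obtain ⟨j', hj', hne, he⟩ := hx
        rw [Finset.mem_biUnion]
        refine ⟨j', Finset.mem_erase.2 ⟨hne, hj'⟩, ?_⟩
        rw [Finset.mem_filter]
        exact ⟨Finset.mem_univ _, he⟩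
    have h7 := Finset.card_le_card h6
    rw [Finset.card_univ, Fintype.card_fin] at h7
    refine h7.trans ((Finset.card_union_le _ _).trans (Nat.add_le_add_left ?_ _))
    refine Finset.card_biUnion_le.trans ?_
    calc ∑ j' ∈ J.erase j, (univ.filter (fun x => f j' x = f j x)).card
        ≤ ∑ _j' ∈ J.erase j, d := Finset.sum_le_sum fun j' hj' =>
          hf j' j (Finset.mem_erase.1 hj').1
      _ = (J.erase j).card * d := by rw [Finset.sum_const, smul_eq_mul]
      _ ≤ J.card * d := Nat.mul_le_mul_right _ (Finset.card_le_card (Finset.erase_subset _ _))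
  have h6 : J.card * q ≤ ∑ x, (U x).card + J.card * (J.card * d) := by
    rw [h4]
    have h7 := Finset.sum_le_sum h5
    rw [Finset.sum_const, smul_eq_mul, Finset.sum_add_distrib, Finset.sum_const, smul_eq_mul] at h7
    exact h7
  have h7 : J.card * q ≤ 2 * ∑ x, D x := by
    have h8 : ∑ x, (U x).card ≤ ∑ x, D x := Finset.sum_le_sum fun x _ => h3 x
    have h9 : J.card * (2 * (J.card * d)) ≤ J.card * q := Nat.mul_le_mul_left _ hk
    nlinarith
  have h8 : (J.card : ℝ) * q ≤ 2 * ∑ x, (D x : ℝ) := by exact_mod_cast h7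
  linarith

/-- A lower bound for the number of functions that avoid one function. -/
lemma pred_pow (q : ℕ) (hq : 4 ≤ q) : (q : ℝ) ^ q / 4 ≤ ((q : ℝ) - 1) ^ q := by
  have hqR : (4 : ℝ) ≤ q := by exact_mod_cast hq
  have h1 : (q : ℝ) / (q - 1) ≤ Real.exp (1 / (q - 1)) := by
    have h2 := Real.add_one_le_exp (1 / ((q : ℝ) - 1))
    have h3 : (q : ℝ) / (q - 1) = 1 / (q - 1) + 1 := by
      have : (q : ℝ) - 1 ≠ 0 := by linarith
      field_simp
      ring
    rw [h3]
    exact h2
  have h2 : ((q : ℝ) / (q - 1)) ^ q ≤ 4 := by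
    calc ((q : ℝ) / (q - 1)) ^ q ≤ (Real.exp (1 / (q - 1))) ^ q :=
          pow_le_pow_left₀ (div_nonneg (by linarith) (by linarith)) h1 _
      _ = Real.exp (q / (q - 1)) := by
          rw [← Real.exp_nat_mul]
          congr 1
          ring
      _ ≤ Real.exp (4 / 3) := by
          apply Real.exp_le_exp.2
          rw [div_le_div_iff₀ (by linarith) (by norm_num)]
          linarith
      _ ≤ 4 := by
          have h3 : Real.exp (4 / 3) ^ 3 ≤ 4 ^ 3 := by
            rw [← Real.exp_nat_mul]
            have h4 : ((3 : ℕ) : ℝ) * (4 / 3) = ((4 : ℕ) : ℝ) * 1 := by norm_num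
            rw [h4, Real.exp_nat_mul]
            have h5 := Real.exp_one_lt_d9
            calc Real.exp 1 ^ 4 ≤ (2.7182818286 : ℝ) ^ 4 :=
                  pow_le_pow_left₀ (Real.exp_pos 1).le h5.le 4
              _ ≤ 4 ^ 3 := by norm_num
          exact le_of_pow_le_pow_left₀ (by norm_num) (by norm_num) h3
  have h3 : (0 : ℝ) < ((q : ℝ) - 1) ^ q := pow_pos (by linarith) _
  rw [div_pow, div_le_iff₀ h3] at h2
  linarith

/-- Many functions avoid many of the given functions. -/
lemma many_avoid (q m : ℕ) (hq : 4 ≤ q) (hm : 1 ≤ m) (f : Fin m → Fin q → Fin q) :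
    (q : ℝ) ^ q / 8 ≤ ((univ.filter (fun g : Fin q → Fin q =>
      (m : ℝ) / 8 ≤ ((univ.filter (fun j : Fin m => ∀ x, g x ≠ f j x)).card : ℝ))).card : ℝ) := by
  classical
  have hmR : (1 : ℝ) ≤ m := by exact_mod_cast hm
  have hqR : (4 : ℝ) ≤ q := by exact_mod_cast hq
  obtain ⟨N, hN⟩ : ∃ N : (Fin q → Fin q) → ℕ, N = fun g =>
    (univ.filter (fun j : Fin m => ∀ x, g x ≠ f j x)).card := ⟨_, rfl⟩
  have h1 : ∑ g, (N g : ℝ) = m * ((q : ℝ) - 1) ^ q := by
    have h2 : ∑ g, N g = ∑ j : Fin m, (univ.filter (fun g : Fin q → Fin q =>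
        ∀ x, g x ≠ f j x)).card := by
      rw [hN]
      simp only [Finset.card_filter]
      rw [Finset.sum_comm]
    have h3 : ∀ j : Fin m, (univ.filter (fun g : Fin q → Fin q => ∀ x, g x ≠ f j x)).card =
        (q - 1) ^ q := by
      intro j
      have h4 : univ.filter (fun g : Fin q → Fin q => ∀ x, g x ≠ f j x) =
          Fintype.piFinset (fun x => univ.erase (f j x)) := by
        ext g
        rw [Finset.mem_filter, Fintype.mem_piFinset]
        simp
      rw [h4, Fintype.card_piFinset]
      simp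
    rw [Finset.sum_congr rfl fun j _ => h3 j, Finset.sum_const, Finset.card_univ,
      Fintype.card_fin, smul_eq_mul] at h2
    have h5 : ((∑ g, N g : ℕ) : ℝ) = ((m * (q - 1) ^ q : ℕ) : ℝ) := by rw [h2]
    push_cast at h5
    rw [Nat.cast_sub (by omega)] at h5
    simpa using h5
  obtain ⟨A, hA⟩ : ∃ A : Finset (Fin q → Fin q), A = univ.filter (fun g : Fin q → Fin q =>
      (m : ℝ) / 8 ≤ (N g : ℝ)) := ⟨_, rfl⟩
  have hgoal : univ.filter (fun g : Fin q → Fin q =>
      (m : ℝ) / 8 ≤ ((univ.filter (fun j : Fin m => ∀ x, g x ≠ f j x)).card : ℝ)) = A := by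
    rw [hA, hN]
  rw [hgoal]
  have h2 : ∑ g, (N g : ℝ) ≤ ∑ g, ((if g ∈ A then (m : ℝ) else 0) + (m : ℝ) / 8) := by
    apply Finset.sum_le_sum
    intro g _
    have hNm : (N g : ℝ) ≤ m := by
      have : N g ≤ m := by
        rw [hN]
        calc _ ≤ (univ : Finset (Fin m)).card := Finset.card_le_card (Finset.filter_subset _ _)
          _ = m := by rw [Finset.card_univ, Fintype.card_fin]
      exact_mod_cast this
    by_cases hg : g ∈ A
    · rw [if_pos hg]
      linarith
    · rw [if_neg hg]
      rw [hA, Finset.mem_filter] at hg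
      push Not at hg
      have := hg (Finset.mem_univ _)
      linarith
  rw [h1, Finset.sum_add_distrib, Finset.sum_ite_mem, Finset.univ_inter, Finset.sum_const,
    Finset.sum_const, Finset.card_univ, Fintype.card_fun, Fintype.card_fin, nsmul_eq_mul,
    nsmul_eq_mul] at h2
  have h3 := pred_pow q hq
  push_cast at h2
  have h4 : (m : ℝ) * ((q : ℝ) ^ q / 4) ≤ m * ((q : ℝ) - 1) ^ q :=
    mul_le_mul_of_nonneg_left h3 (by linarith)
  have h5 : (m : ℝ) * ((q : ℝ) ^ q / 8) ≤ m * A.card := by nlinarith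
  exact le_of_mul_le_mul_left h5 (by linarith)

end Pool.Agent.W964.Si
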