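import Mathlib

/-!
Data structures for set intersection queries in the cell probe model.
-/

namespace Pool.Agent.W964.Si

/-- A query algorithm for a memory of `S` cells with `W` possible contents each, with answers in
`O`: it either answers, or it probes a cell and continues depending on the content of the cell. -/
inductive Alg (S W : ℕ) (O : Type) : Type
  | answer (o : O) : Alg S W O
  | probe (c : Fin S) (next : Fin W → Alg S W O) : Alg S W O

/-- The answer when the contents of the cells are `mem`. -/
def Alg.out {S W : ℕ} {O : Type} (mem : Fin S → Fin W) : Alg S W O → O
  | Alg.answer o => o
  | Alg.probe c next => (next (mem c)).out mem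

/-- The number of probes when the contents of the cells are `mem`. -/
def Alg.probes {S W : ℕ} {O : Type} (mem : Fin S → Fin W) : Alg S W O → ℕ
  | Alg.answer _ => 0
  | Alg.probe c next => (next (mem c)).probes mem + 1

/-- A data structure for set intersection queries about families of subsets of `{0, …, N - 1}`, with
`S` cells that contain one of `W` possible values each. -/
structure DataStructure (N S W : ℕ) where
  /-- the contents of the cells for a family of sets -/
  memory : List (Finset (Fin N)) → (Fin S → Fin W)
  /-- the query algorithm for families of `k` sets and the sets with the indices `i` and `j` -/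
  query : ℕ → ℕ → ℕ → Alg S W (Finset (Fin N))

/-- The families of different subsets of `{0, …, N - 1}` of total size `N`. -/
def Admissible (N : ℕ) (F : List (Finset (Fin N))) : Prop :=
  F.Nodup ∧ (F.map Finset.card).sum = N

/-- All queries about admissible families are answered correctly. -/
def DataStructure.Correct {N S W : ℕ} (D : DataStructure N S W) : Prop :=
  ∀ F, Admissible N F → ∀ (i j : ℕ) (hi : i < F.length) (hj : j < F.length),
    (D.query F.length i j).out (D.memory F) = F[i] ∩ F[j]

/-- All queries about admissible families are answered with at most `C (T + op)` probes, where
`op` is the size of the intersection. -/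
def DataStructure.Fast {N S W : ℕ} (D : DataStructure N S W) (C T : ℝ) : Prop :=
  ∀ F, Admissible N F → ∀ (i j : ℕ) (hi : i < F.length) (hj : j < F.length),
    ((D.query F.length i j).probes (D.memory F) : ℝ) ≤ C * (T + ((F[i] ∩ F[j]).card : ℝ))

end Pool.Agent.W964.Si
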