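import Mathlib
import Pool.Agent.W964.Si.Defs

/-!
The families of sets for the lower bound.
-/

set_option linter.unusedSectionVars false

namespace Pool.Agent.W964.Si

open Finset

section Fam

variable {N q m : ℕ}

/-- The point `(x, y)` as an element of the universe. -/
def pt (h : q * q + m ≤ N) (x y : Fin q) : Fin N :=
  ⟨(x : ℕ) * q + y, by
    have h1 : (x : ℕ) + 1 ≤ q := x.2
    have h2 : ((x : ℕ) + 1) * q ≤ q * q := Nat.mul_le_mul_right q h1
    have h3 : (y : ℕ) < q := y.2
    have h4 : ((x : ℕ) + 1) * q = x * q + q := by ring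
    omega⟩

lemma pt_inj (h : q * q + m ≤ N) (x y x' y' : Fin q) (he : pt h x y = pt h x' y') :
    x = x' ∧ y = y' := by
  have h1 : (x : ℕ) * q + y = (x' : ℕ) * q + y' := congrArg Fin.val he
  have hq : 0 < q := lt_of_le_of_lt (Nat.zero_le _) x.2
  have h2 : ((x : ℕ) * q + y) / q = x := by
    rw [mul_comm, Nat.mul_add_div hq, Nat.div_eq_of_lt y.2, add_zero]
  have h3 : ((x' : ℕ) * q + y') / q = x' := by
    rw [mul_comm, Nat.mul_add_div hq, Nat.div_eq_of_lt y'.2, add_zero]
  have h4 : (x : ℕ) = x' := by rw [← h2, ← h3, h1]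
  refine ⟨Fin.ext h4, Fin.ext ?_⟩
  rw [h4] at h1
  omega

lemma pt_lt (h : q * q + m ≤ N) (x y : Fin q) : ((pt h x y : Fin N) : ℕ) < q * q := by
  have h1 : (x : ℕ) + 1 ≤ q := x.2
  have h2 : ((x : ℕ) + 1) * q ≤ q * q := Nat.mul_le_mul_right q h1
  have h3 : (y : ℕ) < q := y.2
  have h4 : ((x : ℕ) + 1) * q = x * q + q := by ring
  show (x : ℕ) * q + y < q * q
  omega

/-- The mark of the set `i`. -/
def mark (h : q * q + m ≤ N) (i : Fin m) : Fin N := ⟨q * q + i, by have := i.2; omega⟩

/-- The graph of a function. -/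
def graph (h : q * q + m ≤ N) (u : Fin q → Fin q) : Finset (Fin N) :=
  univ.image (fun x => pt h x (u x))

lemma mem_graph (h : q * q + m ≤ N) (u : Fin q → Fin q) (e : Fin N) :
    e ∈ graph h u ↔ ∃ x, pt h x (u x) = e := by
  rw [graph, Finset.mem_image]
  simp

lemma graph_card (h : q * q + m ≤ N) (u : Fin q → Fin q) : (graph h u).card = q := by
  rw [graph, Finset.card_image_of_injective, Finset.card_univ, Fintype.card_fin]
  intro x x' hx
  exact (pt_inj h _ _ _ _ hx).1

lemma mark_notMem (h : q * q + m ≤ N) (i : Fin m) (u : Fin q → Fin q) :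
    mark h i ∉ graph h u := by
  rw [mem_graph]
  rintro ⟨x, hx⟩
  have h1 := pt_lt h x (u x)
  rw [hx] at h1
  have h2 : q * q + (i : ℕ) < q * q := h1
  omega

lemma graph_inj (h : q * q + m ≤ N) (u v : Fin q → Fin q) (he : graph h u = graph h v) :
    u = v := by
  funext x
  have h1 : pt h x (u x) ∈ graph h v := by
    rw [← he, mem_graph]
    exact ⟨x, rfl⟩
  rw [mem_graph] at h1
  obtain ⟨y, hy⟩ := h1
  obtain ⟨h2, h3⟩ := pt_inj h _ _ _ _ hy
  rw [h2] at h3
  exact h3.symm

/-- The large elements of the universe. -/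
def pad (N K : ℕ) : Finset (Fin N) := univ.filter (fun e => K ≤ (e : ℕ))

lemma pad_card (N K : ℕ) (h : K ≤ N) : (pad N K).card = N - K := by
  have h1 : (pad N K).card + (univ.filter (fun e : Fin N => ¬ K ≤ (e : ℕ))).card = N := by
    rw [pad, Finset.card_filter_add_card_filter_not, Finset.card_univ, Fintype.card_fin]
  have h2 : (univ.filter (fun e : Fin N => ¬ K ≤ (e : ℕ))).card = K := by
    have h3 : (univ.filter (fun e : Fin N => ¬ K ≤ (e : ℕ))) =
        (univ : Finset (Fin K)).map (Fin.castLEEmb h) := by
      ext e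
      simp only [Finset.mem_filter, Finset.mem_univ, true_and, Finset.mem_map]
      constructor
      · intro he
        exact ⟨⟨e, by omega⟩, rfl⟩
      · rintro ⟨a, ha⟩
        have h4 : (e : ℕ) = a := by rw [← ha]; rfl
        have := a.2
        omega
    rw [h3, Finset.card_map, Finset.card_univ, Fintype.card_fin]
  omega

/-- The family. -/
def fam (h : q * q + m ≤ N) (f g : Fin m → Fin q → Fin q) : List (Finset (Fin N)) :=
  List.ofFn (fun i => insert (mark h i) (graph h (g i))) ++
    (List.ofFn (fun j => graph h (f j)) ++ [pad N (m * (2 * q + 1))])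

lemma fam_length (h : q * q + m ≤ N) (f g : Fin m → Fin q → Fin q) :
    (fam h f g).length = m + (m + 1) := by
  simp [fam]

lemma fam_left (h : q * q + m ≤ N) (f g : Fin m → Fin q → Fin q) (i : Fin m)
    (hi : (i : ℕ) < (fam h f g).length) :
    (fam h f g)[(i : ℕ)] = insert (mark h i) (graph h (g i)) := by
  revert hi
  unfold fam
  intro hi
  rw [List.getElem_append_left (by simp)]
  simp

lemma fam_right (h : q * q + m ≤ N) (f g : Fin m → Fin q → Fin q) (j : Fin m)
    (hj : m + (j : ℕ) < (fam h f g).length) :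
    (fam h f g)[m + (j : ℕ)] = graph h (f j) := by
  revert hj
  unfold fam
  intro hj
  rw [List.getElem_append_right (by simp), List.getElem_append_left (by simp)]
  simp

lemma fam_admissible (h : q * q + m ≤ N) (hq : 1 ≤ q) (hqm : q ≤ 2 * m)
    (hN : m * (2 * q + 1) ≤ N) (f g : Fin m → Fin q → Fin q) (hf : Function.Injective f) :
    Admissible N (fam h f g) := by
  have hK : q * q + m ≤ m * (2 * q + 1) := by nlinarith
  have hpad : ∀ e ∈ pad N (m * (2 * q + 1)), q * q + m ≤ (e : ℕ) := by
    intro e he
    rw [pad, Finset.mem_filter] at he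
    omega
  have hx : ∃ x : Fin q, True := ⟨⟨0, by omega⟩, trivial⟩
  obtain ⟨x, _⟩ := hx
  constructor
  · unfold fam
    rw [List.nodup_append, List.nodup_append]
    refine ⟨?_, ⟨?_, ?_, ?_⟩, ?_⟩
    · rw [List.nodup_ofFn]
      intro i i' hi
      have h1 : mark h i ∈ insert (mark h i') (graph h (g i')) := by
        have h2 : insert (mark h i) (graph h (g i)) = insert (mark h i') (graph h (g i')) := hi
        rw [← h2]
        exact Finset.mem_insert_self _ _
      rcases Finset.mem_insert.1 h1 with h3 | h3
      · have h4 : q * q + (i : ℕ) = q * q + i' := congrArg Fin.val h3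
        exact Fin.ext (by omega)
      · exact absurd h3 (mark_notMem h i _)
    · rw [List.nodup_ofFn]
      intro j j' hj
      exact hf (graph_inj h _ _ hj)
    · exact List.nodup_singleton _
    · intro a ha b hb
      rw [List.mem_ofFn] at ha
      rw [List.mem_singleton] at hb
      obtain ⟨j, rfl⟩ := ha
      rw [hb]
      intro hcon
      have h1 : pt h x (f j x) ∈ pad N (m * (2 * q + 1)) := by
        rw [← hcon, mem_graph]
        exact ⟨x, rfl⟩
      have h2 := hpad _ h1
      have h3 := pt_lt h x (f j x)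
      omega
    · intro a ha b hb
      rw [List.mem_ofFn] at ha
      obtain ⟨i, rfl⟩ := ha
      rw [List.mem_append, List.mem_ofFn, List.mem_singleton] at hb
      rcases hb with ⟨j, rfl⟩ | rfl
      · intro hcon
        have h1 : mark h i ∈ graph h (f j) := by
          rw [← hcon]
          exact Finset.mem_insert_self _ _
        exact absurd h1 (mark_notMem h i _)
      · intro hcon
        have h1 : pt h x (g i x) ∈ pad N (m * (2 * q + 1)) := by
          rw [← hcon]
          refine Finset.mem_insert_of_mem ?_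
          rw [mem_graph]
          exact ⟨x, rfl⟩
        have h2 := hpad _ h1
        have h3 := pt_lt h x (g i x)
        omega
  · unfold fam
    rw [List.map_append, List.map_append, List.sum_append, List.sum_append, List.map_ofFn,
      List.map_ofFn, List.sum_ofFn, List.sum_ofFn]
    have h1 : ∀ i, (Finset.card ∘ fun i => insert (mark h i) (graph h (g i))) i = q + 1 := by
      intro i
      show (insert (mark h i) (graph h (g i))).card = q + 1
      rw [Finset.card_insert_of_notMem (mark_notMem h i _), graph_card]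
    have h2 : ∀ j, (Finset.card ∘ fun j => graph h (f j)) j = q := by
      intro j
      exact graph_card h _
    rw [Finset.sum_congr rfl (fun i _ => h1 i), Finset.sum_congr rfl (fun i _ => h2 i)]
    simp only [Finset.sum_const, Finset.card_univ, Fintype.card_fin, smul_eq_mul, List.map_cons,
      List.map_nil, List.sum_cons, List.sum_nil, add_zero]
    rw [pad_card N _ hN]
    have h3 : m * (q + 1) + m * q = m * (2 * q + 1) := by ring
    omega

lemma fam_inter (h : q * q + m ≤ N) (f g : Fin m → Fin q → Fin q) (i j : Fin m)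
    (hi : (i : ℕ) < (fam h f g).length) (hj : m + (j : ℕ) < (fam h f g).length) :
    (fam h f g)[(i : ℕ)] ∩ (fam h f g)[m + (j : ℕ)] = ∅ ↔ ∀ x, g i x ≠ f j x := by
  rw [fam_left, fam_right]
  constructor
  · intro he x hx
    have h1 : pt h x (f j x) ∈ insert (mark h i) (graph h (g i)) ∩ graph h (f j) := by
      rw [Finset.mem_inter]
      refine ⟨Finset.mem_insert_of_mem ?_, ?_⟩
      · rw [mem_graph]
        exact ⟨x, by rw [hx]⟩
      · rw [mem_graph]
        exact ⟨x, rfl⟩
    rw [he] at h1
    exact absurd h1 (Finset.notMem_empty _)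
  · intro hne
    rw [Finset.eq_empty_iff_forall_notMem]
    intro e he
    rw [Finset.mem_inter, Finset.mem_insert] at he
    obtain ⟨h1 | h1, h2⟩ := he
    · rw [h1] at h2
      exact mark_notMem h i _ h2
    · rw [mem_graph] at h1 h2
      obtain ⟨x, hx⟩ := h1
      obtain ⟨y, hy⟩ := h2
      obtain ⟨h3, h4⟩ := pt_inj h _ _ _ _ (hx.trans hy.symm)
      rw [← h3] at h4
      exact hne x h4

end Fam

end Pool.Agent.W964.Si
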