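import Mathlib
import Pool.Agent.W964.Si.Defs

/-!
Query algorithms for partially known memories.
-/

set_option linter.unusedSectionVars false

namespace Pool.Agent.W964.Si

open Finset

variable {S W : ℕ} {O : Type}

/-- The probed cells. -/
def Alg.path (mem : Fin S → Fin W) : Alg S W O → List (Fin S)
  | Alg.answer _ => []
  | Alg.probe c next => c :: (next (mem c)).path mem

lemma Alg.path_length (mem : Fin S → Fin W) (a : Alg S W O) :
    (a.path mem).length = a.probes mem := by
  induction a with
  | answer o => rfl
  | probe c next ih =>
    show ((next (mem c)).path mem).length + 1 = (next (mem c)).probes mem + 1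
    rw [ih]

/-- The answer of an algorithm with at most `k` probes of cells with known contents. -/
def Alg.prun (v : Fin S → Option (Fin W)) : ℕ → Alg S W O → Option O
  | _, Alg.answer o => some o
  | 0, Alg.probe _ _ => none
  | k + 1, Alg.probe c next => match v c with
    | none => none
    | some u => Alg.prun v k (next u)

lemma Alg.prun_sound (v : Fin S → Option (Fin W)) (mem : Fin S → Fin W)
    (h : ∀ c u, v c = some u → mem c = u) (k : ℕ) (a : Alg S W O) (o : O)
    (ha : a.prun v k = some o) : a.out mem = o := by
  induction a generalizing k with
  | answer o' =>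
    show o' = o
    cases k <;> simpa [Alg.prun] using ha
  | probe c next ih =>
    cases k with
    | zero => simp [Alg.prun] at ha
    | succ k =>
      cases hv : v c with
      | none => simp [Alg.prun, hv] at ha
      | some u =>
        have h1 := h c u hv
        have h2 : (next u).prun v k = some o := by simpa [Alg.prun, hv] using ha
        show (next (mem c)).out mem = o
        rw [h1]
        exact ih u k h2

lemma Alg.prun_complete (v : Fin S → Option (Fin W)) (mem : Fin S → Fin W) (k : ℕ)
    (a : Alg S W O) (h : ∀ c ∈ a.path mem, v c = some (mem c)) (hk : a.probes mem ≤ k) :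
    a.prun v k = some (a.out mem) := by
  induction a generalizing k with
  | answer o' => cases k <;> rfl
  | probe c next ih =>
    cases k with
    | zero =>
      have h1 : (next (mem c)).probes mem + 1 ≤ 0 := hk
      omega
    | succ k =>
      have h1 : v c = some (mem c) := h c List.mem_cons_self
      have h2 : (next (mem c)).probes mem + 1 ≤ k + 1 := hk
      have h3 := ih (mem c) k (fun c' hc' => h c' (List.mem_cons_of_mem _ hc')) (by omega)
      simp only [Alg.prun, h1]
      exact h3

/-- The number of partially known memories. -/
lemma card_partial (S W K : ℕ) : (univ.filter (fun v : Fin S → Option (Fin W) =>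
    (univ.filter (fun c => v c ≠ none)).card ≤ K)).card ≤ (S * W + 1) ^ K := by
  classical
  obtain ⟨G, hG⟩ : ∃ G : (Fin K → Option (Fin S × Fin W)) → (Fin S → Option (Fin W)),
      G = fun h c => if ex : ∃ u i, h i = some (c, u) then some ex.choose else none := ⟨_, rfl⟩
  have h1 : univ.filter (fun v : Fin S → Option (Fin W) =>
      (univ.filter (fun c => v c ≠ none)).card ≤ K) ⊆ univ.image G := by
    intro v hv
    rw [Finset.mem_filter] at hv
    rw [Finset.mem_image]
    obtain ⟨A, hA⟩ : ∃ A : Finset (Fin S), A = univ.filter (fun c => v c ≠ none) := ⟨_, rfl⟩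
    rw [← hA] at hv
    obtain ⟨h, hh⟩ : ∃ h : Fin K → Option (Fin S × Fin W), h = fun (i : Fin K) =>
      (A.toList[(i : ℕ)]?).bind (fun c => (v c).map (fun u => (c, u))) := ⟨_, rfl⟩
    refine ⟨h, Finset.mem_univ _, ?_⟩
    have key : ∀ c u, (∃ i, h i = some (c, u)) ↔ v c = some u := by
      intro c u
      constructor
      · rintro ⟨i, hi⟩
        rw [hh] at hi
        simp only [Option.bind_eq_some_iff, Option.map_eq_some_iff] at hi
        obtain ⟨c', _, u', hu', he⟩ := hi
        rw [Prod.mk.injEq] at he
        rw [← he.1, ← he.2]
        exact hu'
      · intro hvc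
        have hc : c ∈ A.toList := by
          rw [Finset.mem_toList, hA, Finset.mem_filter]
          exact ⟨Finset.mem_univ _, by rw [hvc]; simp⟩
        obtain ⟨i, hi⟩ := List.mem_iff_getElem?.1 hc
        have hlt : i < A.toList.length := by
          by_contra hcon
          rw [List.getElem?_eq_none (by omega)] at hi
          exact absurd hi (by simp)
        rw [Finset.length_toList] at hlt
        refine ⟨⟨i, by omega⟩, ?_⟩
        rw [hh]
        show (A.toList[i]?).bind (fun c => (v c).map (fun u => (c, u))) = some (c, u)
        rw [hi]
        simp [hvc]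
    funext c
    rw [hG]
    dsimp only
    by_cases ex : ∃ u i, h i = some (c, u)
    · rw [dif_pos ex]
      exact ((key c _).1 ex.choose_spec).symm
    · rw [dif_neg ex]
      cases hvc : v c with
      | none => rfl
      | some u => exact absurd ⟨u, (key c u).2 hvc⟩ ex
  refine (Finset.card_le_card h1).trans (Finset.card_image_le.trans (le_of_eq ?_))
  rw [Finset.card_univ, Fintype.card_fun, Fintype.card_option, Fintype.card_prod, Fintype.card_fin,
    Fintype.card_fin, Fintype.card_fin]

end Pool.Agent.W964.Si
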