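import Mathlib
import Pool.Agent.H568R2.Sens

/-!
Random sets of cells: a combinatorial lemma about the probes of many queries.
-/

set_option linter.unusedSectionVars false

namespace Pool.Agent.W964.Si

open Finset H568R2

section
variable {κ : Type} [Fintype κ] [DecidableEq κ]

/-- The indicator of a random set. -/
noncomputable def ch (ω : κ → Bool) (u : κ) : ℝ := if ω u = true then 1 else 0

lemma Ex_ch2 (p : ℝ) (u v : κ) :
    Ex (vp p) (fun ω : κ → Bool => ch ω u * ch ω v) = if u = v then p else p ^ 2 := by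
  have h1 := Ex_indep (I := κ) (vp_sum p) (fun b : Bool => b = true) {u, v} (fun _ => (1 : ℝ))
    (fun _ _ _ _ => rfl)
  have h3 : ∑ a ∈ univ.filter (fun b : Bool => b = true), vp p a = p := by
    rw [Finset.sum_filter, Fintype.sum_bool]
    simp [vp]
  rw [Ex_const (vp_sum p), mul_one, h3] at h1
  have h2 : (fun ω : κ → Bool => ch ω u * ch ω v) =
      (fun ω : κ → Bool => (1 : ℝ) * (if ∀ i ∈ ({u, v} : Finset κ), ω i = true then 1 else 0)) := by
    funext ω
    unfold ch
    by_cases hu : ω u = true <;> by_cases hv : ω v = true <;> simp [hu, hv]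
  rw [h2, h1]
  by_cases huv : u = v
  · rw [if_pos huv, huv]
    simp
  · rw [if_neg huv, Finset.card_pair huv]

lemma Ex_ch (p : ℝ) (u : κ) : Ex (vp p) (fun ω : κ → Bool => ch ω u) = p := by
  have h1 := Ex_ch2 p u u
  rw [if_pos rfl] at h1
  have h2 : (fun ω : κ → Bool => ch ω u) = (fun ω => ch ω u * ch ω u) := by
    funext ω
    unfold ch
    split_ifs <;> norm_num
  rw [h2]
  exact h1

/-- The variance. -/
lemma Ex_var {α : Type} (p : ℝ) (_hp : 0 ≤ p) (J : Finset α) (c : α → κ) :
    Ex (vp p) (fun ω : κ → Bool => (∑ j ∈ J, ch ω (c j) - J.card * p) ^ 2) ≤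
      p * ∑ j ∈ J, ((J.filter (fun j' => c j' = c j)).card : ℝ) := by
  have h1 : ∀ ω : κ → Bool, (∑ j ∈ J, ch ω (c j) - J.card * p) ^ 2 =
      (∑ j ∈ J, ∑ j' ∈ J, ch ω (c j) * ch ω (c j')) +
      ((-2 * (J.card * p)) * (∑ j ∈ J, ch ω (c j)) + (J.card * p) ^ 2) := by
    intro ω
    rw [← Finset.sum_mul_sum]
    ring
  simp only [h1]
  rw [Ex_add, Ex_add, Ex_const (vp_sum p), Ex_smul, Ex_sum, Ex_sum]
  have h2 : ∀ j ∈ J, Ex (vp p) (fun ω : κ → Bool => ∑ j' ∈ J, ch ω (c j) * ch ω (c j')) =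
      ∑ j' ∈ J, (if c j = c j' then p else p ^ 2) := by
    intro j _
    rw [Ex_sum]
    exact Finset.sum_congr rfl fun j' _ => Ex_ch2 p (c j) (c j')
  rw [Finset.sum_congr rfl h2, Finset.sum_congr rfl fun j _ => Ex_ch p (c j)]
  have h3 : ∀ j ∈ J, ∑ j' ∈ J, (if c j = c j' then p else p ^ 2) ≤
      p * ((J.filter (fun j' => c j' = c j)).card : ℝ) + J.card * p ^ 2 := by
    intro j _
    have h4 : ∀ j' ∈ J, (if c j = c j' then p else p ^ 2) ≤
        p * (if c j' = c j then 1 else 0) + p ^ 2 := by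
      intro j' _
      by_cases h : c j = c j'
      · rw [if_pos h, if_pos h.symm]
        nlinarith [sq_nonneg p]
      · rw [if_neg h, if_neg (fun h' => h h'.symm)]
        linarith
    refine (Finset.sum_le_sum h4).trans (le_of_eq ?_)
    rw [Finset.sum_add_distrib, ← Finset.mul_sum, Finset.sum_boole, Finset.sum_const,
      nsmul_eq_mul]
  have h5 := Finset.sum_le_sum h3
  rw [Finset.sum_add_distrib, ← Finset.mul_sum, Finset.sum_const, nsmul_eq_mul] at h5
  rw [Finset.sum_const, nsmul_eq_mul]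
  nlinarith

/-- The probability that the random set keeps few elements. -/
lemma Ex_fail {α : Type} (p θ : ℝ) (hp : 0 < p) (hp1 : p ≤ 1) (J : Finset α) (c : α → κ)
    (hJ : J.Nonempty) (h : ∀ j ∈ J, ((J.filter (fun j' => c j' = c j)).card : ℝ) ≤ θ * J.card) :
    Ex (vp p) (fun ω : κ → Bool =>
      if ∑ j ∈ J, ch ω (c j) < J.card * p / 2 then (1 : ℝ) else 0) ≤ 4 * θ / p := by
  have hn : (0 : ℝ) < J.card := by exact_mod_cast hJ.card_pos
  have h1 : ∀ ω : κ → Bool, (if ∑ j ∈ J, ch ω (c j) < J.card * p / 2 then (1 : ℝ) else 0) ≤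
      4 / (J.card * p) ^ 2 * (∑ j ∈ J, ch ω (c j) - J.card * p) ^ 2 := by
    intro ω
    split_ifs with hlt
    · rw [div_mul_eq_mul_div, le_div_iff₀ (by positivity), one_mul]
      have h2 : (J.card : ℝ) * p / 2 ≤ J.card * p - ∑ j ∈ J, ch ω (c j) := by linarith
      have h3 : 0 ≤ (J.card : ℝ) * p / 2 := by positivity
      nlinarith
    · positivity
  refine (Ex_mono (vp_nonneg hp.le hp1) h1).trans ?_
  rw [Ex_smul]
  have h2 := Ex_var p hp.le J c
  have h3 : ∑ j ∈ J, ((J.filter (fun j' => c j' = c j)).card : ℝ) ≤ J.card * (θ * J.card) := by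
    refine (Finset.sum_le_sum h).trans (le_of_eq ?_)
    rw [Finset.sum_const, nsmul_eq_mul]
  calc 4 / (J.card * p) ^ 2 * Ex (vp p) (fun ω : κ → Bool =>
        (∑ j ∈ J, ch ω (c j) - J.card * p) ^ 2)
      ≤ 4 / (J.card * p) ^ 2 * (p * (J.card * (θ * J.card))) := by
        apply mul_le_mul_of_nonneg_left _ (by positivity)
        exact h2.trans (mul_le_mul_of_nonneg_left h3 hp.le)
    _ = 4 * θ / p := by
        field_simp

end

/-- One step: a small set of cells that contains the cells of many queries of most rows. -/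
lemma step {ι α κ : Type} [Fintype κ] [DecidableEq κ] [Nonempty κ] (m t : ℕ)
    (hm : 1 ≤ m) (ht : 1 ≤ t) (p : ℝ) (hp : 0 < p) (hp1 : p ≤ 1) (I : Finset ι)
    (hI : I.card ≤ m) (J : ι → Finset α) (c : ι → α → κ) :
    ∃ (R : Finset κ) (I' : Finset ι), I' ⊆ I ∧
      (R.card : ℝ) ≤ m + 2 * p * Fintype.card κ ∧
      (I.card : ℝ) - m / (2 * t) ≤ I'.card ∧
      ∀ i ∈ I', p / (64 * t) * (J i).card ≤ (((J i).filter (fun j => c i j ∈ R)).card : ℝ) := by
  classical
  have hmR : (1 : ℝ) ≤ m := by exact_mod_cast hm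
  have htR : (1 : ℝ) ≤ t := by exact_mod_cast ht
  have hκ : (0 : ℝ) < Fintype.card κ := by exact_mod_cast Fintype.card_pos
  obtain ⟨θ, hθ⟩ : ∃ θ : ℝ, θ = p / (64 * t) := ⟨_, rfl⟩
  have hθ0 : 0 < θ := by rw [hθ]; positivity
  rw [← hθ]
  -- rows in which one cell is probed often
  obtain ⟨IA, hIA⟩ : ∃ IA : Finset ι, IA = I.filter (fun i => ∃ u,
    θ * (J i).card ≤ (((J i).filter (fun j => c i j = u)).card : ℝ)) := ⟨_, rfl⟩
  obtain ⟨IB, hIB⟩ : ∃ IB : Finset ι, IB = I.filter (fun i => ¬ ∃ u,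
    θ * (J i).card ≤ (((J i).filter (fun j => c i j = u)).card : ℝ)) := ⟨_, rfl⟩
  have hu : ∀ i, ∃ u, i ∈ IA → θ * (J i).card ≤ (((J i).filter (fun j => c i j = u)).card : ℝ) := by
    intro i
    by_cases hi : i ∈ IA
    · rw [hIA, Finset.mem_filter] at hi
      obtain ⟨u, hu⟩ := hi.2
      exact ⟨u, fun _ => hu⟩
    · exact ⟨Classical.arbitrary κ, fun h => absurd h hi⟩
  choose u hu using hu
  have hIBne : ∀ i ∈ IB, (J i).Nonempty := by
    intro i hi
    rw [hIB, Finset.mem_filter] at hi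
    by_contra hne
    rw [Finset.not_nonempty_iff_eq_empty] at hne
    apply hi.2
    refine ⟨Classical.arbitrary κ, ?_⟩
    rw [hne]
    simp
  have hfail : ∀ i ∈ IB, Ex (vp p) (fun ω : κ → Bool =>
      if ∑ j ∈ J i, ch ω (c i j) < (J i).card * p / 2 then (1 : ℝ) else 0) ≤ 1 / (16 * t) := by
    intro i hi
    have h1 := Ex_fail p θ hp hp1 (J i) (c i) (hIBne i hi) (by
      intro j _
      rw [hIB, Finset.mem_filter] at hi
      by_contra hcon
      push Not at hcon
      exact hi.2 ⟨c i j, hcon.le⟩)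
    refine h1.trans (le_of_eq ?_)
    rw [hθ]
    field_simp
    norm_num
  -- the average
  have havg : Ex (vp p) (fun ω : κ → Bool => (4 * t / m) * (∑ i ∈ IB,
      (if ∑ j ∈ J i, ch ω (c i j) < (J i).card * p / 2 then (1 : ℝ) else 0)) +
      (1 / (2 * p * Fintype.card κ)) * ∑ u : κ, ch ω u) ≤ 3 / 4 := by
    rw [Ex_add, Ex_smul, Ex_smul, Ex_sum, Ex_sum, Finset.sum_congr rfl fun u _ => Ex_ch p u,
      Finset.sum_const, Finset.card_univ, nsmul_eq_mul]
    have h1 := Finset.sum_le_sum hfail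
    rw [Finset.sum_const, nsmul_eq_mul] at h1
    have h2 : (IB.card : ℝ) ≤ m := by
      have : IB.card ≤ m := (Finset.card_le_card (by rw [hIB]; exact Finset.filter_subset _ _)).trans hI
      exact_mod_cast this
    have h3 : (4 * t / m : ℝ) * ∑ i ∈ IB, Ex (vp p) (fun ω : κ → Bool =>
        if ∑ j ∈ J i, ch ω (c i j) < (J i).card * p / 2 then (1 : ℝ) else 0) ≤ 1 / 4 := by
      calc _ ≤ (4 * t / m : ℝ) * (IB.card * (1 / (16 * t))) :=
            mul_le_mul_of_nonneg_left h1 (by positivity)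
        _ ≤ (4 * t / m : ℝ) * (m * (1 / (16 * t))) := by
            apply mul_le_mul_of_nonneg_left _ (by positivity)
            exact mul_le_mul_of_nonneg_right h2 (by positivity)
        _ = 1 / 4 := by
            field_simp
            norm_num
    have h4 : (1 / (2 * p * Fintype.card κ) : ℝ) * (Fintype.card κ * p) = 1 / 2 := by
      field_simp
    rw [h4]
    linarith
  obtain ⟨ω, hω⟩ : ∃ ω : κ → Bool, (4 * t / m) * (∑ i ∈ IB,
      (if ∑ j ∈ J i, ch ω (c i j) < (J i).card * p / 2 then (1 : ℝ) else 0)) +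
      (1 / (2 * p * Fintype.card κ)) * ∑ u : κ, ch ω u ≤ 3 / 4 := by
    by_contra hcon
    push Not at hcon
    have h1 : (3 : ℝ) / 4 < Ex (vp p) (fun ω : κ → Bool => (4 * t / m) * (∑ i ∈ IB,
        (if ∑ j ∈ J i, ch ω (c i j) < (J i).card * p / 2 then (1 : ℝ) else 0)) +
        (1 / (2 * p * Fintype.card κ)) * ∑ u : κ, ch ω u) := by
      have h2 : Ex (vp p) (fun _ : κ → Bool => (3 / 4 : ℝ)) = 3 / 4 := Ex_const (vp_sum p) _
      rw [← h2]
      unfold Ex
      apply Finset.sum_lt_sum
      · intro ω _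
        exact mul_le_mul_of_nonneg_left (hcon ω).le
          (Finset.prod_nonneg fun i _ => vp_nonneg hp.le hp1 _)
      · refine ⟨fun _ => true, Finset.mem_univ _, ?_⟩
        apply mul_lt_mul_of_pos_left (hcon _)
        apply Finset.prod_pos
        intro i _
        exact hp
    linarith
  have hA0 : 0 ≤ ∑ i ∈ IB,
      (if ∑ j ∈ J i, ch ω (c i j) < (J i).card * p / 2 then (1 : ℝ) else 0) :=
    Finset.sum_nonneg fun i _ => by split_ifs <;> norm_num
  have hB0 : 0 ≤ ∑ u : κ, ch ω u := Finset.sum_nonneg fun u _ => by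
    unfold ch; split_ifs <;> norm_num
  obtain ⟨RB, hRB⟩ : ∃ RB : Finset κ, RB = univ.filter (fun u => ω u = true) := ⟨_, rfl⟩
  obtain ⟨F, hF⟩ : ∃ F : Finset ι, F = IB.filter (fun i =>
    ∑ j ∈ J i, ch ω (c i j) < (J i).card * p / 2) := ⟨_, rfl⟩
  have hRBc : ∑ u : κ, ch ω u = RB.card := by
    unfold ch
    rw [Finset.sum_boole, hRB]
  have hFc : ∑ i ∈ IB,
      (if ∑ j ∈ J i, ch ω (c i j) < (J i).card * p / 2 then (1 : ℝ) else 0) = F.card := by
    rw [Finset.sum_boole, hF]
  rw [hRBc] at hω hB0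
  rw [hFc] at hω hA0
  have hF1 : (F.card : ℝ) ≤ m / (2 * t) := by
    have h1 : (4 * t / m : ℝ) * F.card ≤ 3 / 4 := by
      have : 0 ≤ (1 / (2 * p * Fintype.card κ) : ℝ) * RB.card := by positivity
      linarith
    rw [le_div_iff₀ (by positivity)]
    have h2 : (4 * t / m : ℝ) * F.card * m = 4 * t * F.card := by field_simp
    have h3 : (4 * t / m : ℝ) * F.card * m ≤ 3 / 4 * m := mul_le_mul_of_nonneg_right h1 (by positivity)
    rw [h2] at h3
    nlinarith
  have hRB1 : (RB.card : ℝ) ≤ 2 * p * Fintype.card κ := by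
    have h1 : (1 / (2 * p * Fintype.card κ) : ℝ) * RB.card ≤ 3 / 4 := by
      have : 0 ≤ (4 * t / m : ℝ) * F.card := by positivity
      linarith
    rw [one_div_mul_eq_div, div_le_iff₀ (by positivity)] at h1
    have : 0 < 2 * p * (Fintype.card κ : ℝ) := by positivity
    linarith
  refine ⟨IA.image u ∪ RB, I \ F, Finset.sdiff_subset, ?_, ?_, ?_⟩
  · have h1 : ((IA.image u ∪ RB).card : ℝ) ≤ ((IA.card + RB.card : ℕ) : ℝ) := by
      exact_mod_cast (Finset.card_union_le _ _).trans
        (Nat.add_le_add_right Finset.card_image_le _)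
    have h2 : (IA.card : ℝ) ≤ m := by
      have : IA.card ≤ m := (Finset.card_le_card (by rw [hIA]; exact Finset.filter_subset _ _)).trans hI
      exact_mod_cast this
    push_cast at h1
    linarith
  · have h1 : I.card ≤ (I \ F).card + F.card := by
      have := Finset.le_card_sdiff F I
      omega
    have h2 : (I.card : ℝ) ≤ (I \ F).card + F.card := by exact_mod_cast h1
    linarith
  · intro i hi
    rw [Finset.mem_sdiff] at hi
    by_cases hiA : i ∈ IA
    · refine (hu i hiA).trans ?_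
      have h1 : (J i).filter (fun j => c i j = u i) ⊆
          (J i).filter (fun j => c i j ∈ IA.image u ∪ RB) := by
        intro j hj
        rw [Finset.mem_filter] at hj ⊢
        refine ⟨hj.1, Finset.mem_union_left _ ?_⟩
        rw [hj.2]
        exact Finset.mem_image_of_mem _ hiA
      exact_mod_cast Finset.card_le_card h1
    · have hiB : i ∈ IB := by
        rw [hIB, Finset.mem_filter]
        refine ⟨hi.1, fun hex => hiA ?_⟩
        rw [hIA, Finset.mem_filter]
        exact ⟨hi.1, hex⟩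
      have h1 : ¬ (∑ j ∈ J i, ch ω (c i j) < (J i).card * p / 2) := by
        intro hlt
        apply hi.2
        rw [hF, Finset.mem_filter]
        exact ⟨hiB, hlt⟩
      push Not at h1
      have h2 : ∑ j ∈ J i, ch ω (c i j) = (((J i).filter (fun j => ω (c i j) = true)).card : ℝ) := by
        unfold ch
        rw [Finset.sum_boole]
      have h3 : (J i).filter (fun j => ω (c i j) = true) ⊆
          (J i).filter (fun j => c i j ∈ IA.image u ∪ RB) := by
        intro j hj
        rw [Finset.mem_filter] at hj ⊢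
        refine ⟨hj.1, Finset.mem_union_right _ ?_⟩
        rw [hRB, Finset.mem_filter]
        exact ⟨Finset.mem_univ _, hj.2⟩
      have h4 : (((J i).filter (fun j => ω (c i j) = true)).card : ℝ) ≤
          (((J i).filter (fun j => c i j ∈ IA.image u ∪ RB)).card : ℝ) := by
        exact_mod_cast Finset.card_le_card h3
      have h5 : θ * (J i).card ≤ (J i).card * p / 2 := by
        have : θ ≤ p / 2 := by
          rw [hθ, div_le_div_iff₀ (by positivity) (by norm_num)]
          nlinarith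
        have h6 : (0 : ℝ) ≤ (J i).card := Nat.cast_nonneg _
        nlinarith
      linarith

/-- All steps. -/
theorem levels {ι α κ : Type} [Fintype ι] [Fintype κ] [DecidableEq κ] [Nonempty κ] (m t : ℕ)
    (hm : 1 ≤ m) (ht : 1 ≤ t) (hι : Fintype.card ι = m) (p : ℝ) (hp : 0 < p) (hp1 : p ≤ 1)
    (E : ι → Finset α) (c : ℕ → ι → α → κ) (l : ℕ) :
    ∃ (R : Finset κ) (I : Finset ι), (R.card : ℝ) ≤ l * (m + 2 * p * Fintype.card κ) ∧
      (m : ℝ) - l * (m / (2 * t)) ≤ I.card ∧
      ∀ i ∈ I, (p / (64 * t)) ^ l * (E i).card ≤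
        (((E i).filter (fun j => ∀ l' < l, c l' i j ∈ R)).card : ℝ) := by
  classical
  induction l with
  | zero =>
    refine ⟨∅, univ, by simp, ?_, ?_⟩
    · rw [Finset.card_univ, hι]
      simp
    · intro i _
      rw [pow_zero, one_mul]
      apply le_of_eq
      congr 2
      symm
      apply Finset.filter_true_of_mem
      intro j _ l' hl'
      exact absurd hl' (Nat.not_lt_zero _)
  | succ l ih =>
    obtain ⟨R, I, h1, h2, h3⟩ := ih
    obtain ⟨R', I', hI', h4, h5, h6⟩ := step m t hm ht p hp hp1 I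
      ((Finset.card_le_univ I).trans hι.le)
      (fun i => (E i).filter (fun j => ∀ l' < l, c l' i j ∈ R)) (c l)
    refine ⟨R ∪ R', I', ?_, ?_, ?_⟩
    · have h7 : ((R ∪ R').card : ℝ) ≤ ((R.card + R'.card : ℕ) : ℝ) := by
        exact_mod_cast Finset.card_union_le _ _
      push_cast at h7 ⊢
      linarith
    · push_cast
      linarith
    · intro i hi
      have h7 := h6 i hi
      have h8 := h3 i (hI' hi)
      have h9 : 0 ≤ p / (64 * t) := by positivity
      have h10 : ((E i).filter (fun j => ∀ l' < l, c l' i j ∈ R)).filter (fun j => c l i j ∈ R') ⊆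
          (E i).filter (fun j => ∀ l' < l + 1, c l' i j ∈ R ∪ R') := by
        intro j hj
        rw [Finset.mem_filter, Finset.mem_filter] at hj
        rw [Finset.mem_filter]
        refine ⟨hj.1.1, ?_⟩
        intro l' hl'
        rcases Nat.lt_succ_iff_lt_or_eq.1 hl' with h | h
        · exact Finset.mem_union_left _ (hj.1.2 l' h)
        · rw [h]
          exact Finset.mem_union_right _ hj.2
      have h11 : ((((E i).filter (fun j => ∀ l' < l, c l' i j ∈ R)).filter
          (fun j => c l i j ∈ R')).card : ℝ) ≤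
          (((E i).filter (fun j => ∀ l' < l + 1, c l' i j ∈ R ∪ R')).card : ℝ) := by
        exact_mod_cast Finset.card_le_card h10
      calc (p / (64 * t)) ^ (l + 1) * (E i).card
          = p / (64 * t) * ((p / (64 * t)) ^ l * (E i).card) := by ring
        _ ≤ p / (64 * t) * (((E i).filter (fun j => ∀ l' < l, c l' i j ∈ R)).card : ℝ) :=
            mul_le_mul_of_nonneg_left h8 h9
        _ ≤ _ := h7.trans h11

end Pool.Agent.W964.Si
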