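import Mathlib
import Pool.Agent.W964.Si.Sample
import Pool.Agent.W964.Si.Avoid
import Pool.Agent.W964.Si.Run
import Pool.Agent.W964.Si.Family

/-!
Counting families with the same partial memory.
-/

set_option linter.unusedSectionVars false

namespace Pool.Agent.W964.Si

open Finset

/-- The queries of `i` which are answered with the empty set by the partial memory. -/
def known {N S W : ℕ} (D : DataStructure N S W) (m t : ℕ) (v : Fin S → Option (Fin W))
    (i : Fin m) : Finset (Fin m) :=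
  univ.filter (fun j : Fin m => (D.query (m + (m + 1)) (i : ℕ) (m + (j : ℕ))).prun v t = some ∅)

lemma exists_partial {N S W q m k t : ℕ} (D : DataStructure N S W) (hD : D.Correct)
    (h : q * q + m ≤ N) (hq : 1 ≤ q) (hqm : q ≤ 2 * m) (hN : m * (2 * q + 1) ≤ N) (hm : 1 ≤ m)
    (ht : 1 ≤ t) (f : Fin m → Fin q → Fin q) (hfi : Function.Injective f)
    (hprobe : ∀ F, Admissible N F → ∀ (i j : ℕ) (hi : i < F.length) (hj : j < F.length),
      F[i] ∩ F[j] = ∅ → (D.query F.length i j).probes (D.memory F) ≤ t)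
    (p : ℝ) (hp : 0 < p) (hp1 : p ≤ 1) (hk : 8 * (k : ℝ) ≤ (p / (64 * t)) ^ t * m)
    (g : Fin m → Fin q → Fin q)
    (hg : ∀ i, (m : ℝ) / 8 ≤ ((univ.filter (fun j : Fin m => ∀ x, g i x ≠ f j x)).card : ℝ)) :
    ∃ (v : Fin S → Option (Fin W)) (I : Finset (Fin m)),
      (univ.filter (fun c => v c ≠ none)).card ≤ ⌊(t : ℝ) * (m + 2 * p * (S + 1))⌋₊ ∧
      (m : ℝ) / 2 ≤ I.card ∧ (∀ i ∈ I, k ≤ (known D m t v i).card) ∧
      ∀ i ∈ I, ∀ j ∈ known D m t v i, ∀ x, g i x ≠ f j x := by
  classical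
  have hmR : (1 : ℝ) ≤ m := by exact_mod_cast hm
  have htR : (1 : ℝ) ≤ t := by exact_mod_cast ht
  obtain ⟨F, hF⟩ : ∃ F, F = fam h f g := ⟨_, rfl⟩
  have hadm : Admissible N F := by
    rw [hF]
    exact fam_admissible h hq hqm hN f g hfi
  have hlen : F.length = m + (m + 1) := by rw [hF]; exact fam_length h f g
  obtain ⟨mem, hmem⟩ : ∃ mem, mem = D.memory F := ⟨_, rfl⟩
  obtain ⟨c, hc⟩ : ∃ c : ℕ → Fin m → Fin m → Option (Fin S), c = fun (l : ℕ) (i j : Fin m) =>
    ((D.query (m + (m + 1)) (i : ℕ) (m + (j : ℕ))).path mem)[l]? := ⟨_, rfl⟩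
  obtain ⟨E, hE⟩ : ∃ E : Fin m → Finset (Fin m), E = fun i =>
    univ.filter (fun j : Fin m => ∀ x, g i x ≠ f j x) := ⟨_, rfl⟩
  obtain ⟨R, I, hR, hI, hRI⟩ := levels m t hm ht (Fintype.card_fin m) p hp hp1 E c t
  rw [Fintype.card_option, Fintype.card_fin] at hR
  have hinter : ∀ (i j : Fin m) (hi : (i : ℕ) < F.length) (hj : m + (j : ℕ) < F.length),
      F[(i : ℕ)] ∩ F[m + (j : ℕ)] = ∅ ↔ ∀ x, g i x ≠ f j x := by
    rw [hF]
    exact fun i j hi hj => fam_inter h f g i j hi hj
  obtain ⟨v, hv⟩ : ∃ v : Fin S → Option (Fin W), v = fun c =>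
    if some c ∈ R then some (mem c) else none := ⟨_, rfl⟩
  have hsound : ∀ c u, v c = some u → mem c = u := by
    intro c u hcu
    rw [hv] at hcu
    dsimp only at hcu
    by_cases hcR : some c ∈ R
    · rw [if_pos hcR] at hcu
      exact Option.some.inj hcu
    · rw [if_neg hcR] at hcu
      exact absurd hcu (by simp)
  refine ⟨v, I, ?_, ?_, ?_, ?_⟩
  · have h1 : (univ.filter (fun c => v c ≠ none)).card ≤ R.card := by
      refine Finset.card_le_card_of_injOn (fun c => some c) ?_ ?_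
      · intro c hcv
        have h2 : v c ≠ none := (Finset.mem_filter.1 hcv).2
        by_contra hcR
        apply h2
        rw [hv]
        exact if_neg hcR
      · intro a _ b _ hab
        exact Option.some.inj hab
    refine h1.trans (Nat.le_floor ?_)
    have h2 : (((S + 1 : ℕ) : ℝ)) = (S : ℝ) + 1 := by push_cast; ring
    rw [h2] at hR
    exact hR
  · have h1 : (t : ℝ) * (m / (2 * t)) = m / 2 := by
      field_simp
    rw [h1] at hI
    linarith
  · intro i hi
    have h1 := hRI i hi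
    have h2 : (m : ℝ) / 8 ≤ ((E i).card : ℝ) := by
      rw [hE]
      exact hg i
    have h3 : 0 ≤ (p / (64 * (t : ℝ))) ^ t := by positivity
    have h4 : ((E i).filter (fun j => ∀ l' < t, c l' i j ∈ R)).card ≤ (known D m t v i).card := by
      refine Finset.card_le_card ?_
      intro j hj
      rw [Finset.mem_filter] at hj
      obtain ⟨hjE, hjR⟩ := hj
      have hav : ∀ x, g i x ≠ f j x := by
        rw [hE] at hjE
        exact (Finset.mem_filter.1 hjE).2
      have hil : (i : ℕ) < F.length := by have := i.2; omega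
      have hjl : m + (j : ℕ) < F.length := by have := j.2; omega
      have hempty := (hinter i j hil hjl).2 hav
      have hpr := hprobe F hadm i (m + (j : ℕ)) hil hjl hempty
      have hout := hD F hadm i (m + (j : ℕ)) hil hjl
      rw [hempty, hlen] at hout
      rw [hlen] at hpr
      rw [known, Finset.mem_filter]
      refine ⟨Finset.mem_univ _, ?_⟩
      rw [← hmem] at hpr hout
      have h5 := Alg.prun_complete v mem t (D.query (m + (m + 1)) (i : ℕ) (m + (j : ℕ))) ?_ hpr
      · rw [h5, hout]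
      · intro c' hc'
        obtain ⟨l, hl⟩ := List.mem_iff_getElem?.1 hc'
        have hlt : l < t := by
          have h6 := Alg.path_length mem (D.query (m + (m + 1)) (i : ℕ) (m + (j : ℕ)))
          by_contra hcon
          rw [List.getElem?_eq_none (by omega)] at hl
          exact absurd hl (by simp)
        have h7 := hjR l hlt
        rw [hc] at h7
        dsimp only at h7
        rw [hl] at h7
        rw [hv]
        exact if_pos h7
    have h5 : (k : ℝ) ≤ ((known D m t v i).card : ℝ) := by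
      have h6 : (((E i).filter (fun j => ∀ l' < t, c l' i j ∈ R)).card : ℝ) ≤
          ((known D m t v i).card : ℝ) := by exact_mod_cast h4
      have h7 : (p / (64 * (t : ℝ))) ^ t * (m / 8) ≤ (p / (64 * (t : ℝ))) ^ t * (E i).card :=
        mul_le_mul_of_nonneg_left h2 h3
      nlinarith
    exact_mod_cast h5
  · intro i _ j hj
    rw [known, Finset.mem_filter] at hj
    have hil : (i : ℕ) < F.length := by have := i.2; omega
    have hjl : m + (j : ℕ) < F.length := by have := j.2; omega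
    have h1 := Alg.prun_sound v mem hsound t _ _ hj.2
    rw [← hlen] at h1
    have hout := hD F hadm i (m + (j : ℕ)) hil hjl
    rw [← hmem, h1] at hout
    exact (hinter i j hil hjl).1 hout.symm

theorem count_bound {N S W q m d k t : ℕ} (D : DataStructure N S W) (hD : D.Correct)
    (h : q * q + m ≤ N) (hq : 4 ≤ q) (hqm : q ≤ 2 * m) (hN : m * (2 * q + 1) ≤ N) (hm : 1 ≤ m)
    (ht : 1 ≤ t) (f : Fin m → Fin q → Fin q)
    (hf : ∀ j j', j ≠ j' → (univ.filter (fun x => f j x = f j' x)).card ≤ d)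
    (hfi : Function.Injective f)
    (hprobe : ∀ F, Admissible N F → ∀ (i j : ℕ) (hi : i < F.length) (hj : j < F.length),
      F[i] ∩ F[j] = ∅ → (D.query F.length i j).probes (D.memory F) ≤ t)
    (hkd : 2 * (k * d) ≤ q)
    (p : ℝ) (hp : 0 < p) (hp1 : p ≤ 1) (hk : 8 * (k : ℝ) ≤ (p / (64 * t)) ^ t * m) :
    (k : ℝ) * m / 4 ≤ m * Real.log 16 +
      t * (m + 2 * p * (S + 1)) * Real.log ((S : ℝ) * W + 1) := by
  classical
  have hmR : (1 : ℝ) ≤ m := by exact_mod_cast hm
  have htR : (1 : ℝ) ≤ t := by exact_mod_cast ht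
  have hqR : (4 : ℝ) ≤ q := by exact_mod_cast hq
  have hqq : (0 : ℝ) < (q : ℝ) ^ q := by positivity
  obtain ⟨K0, hK0⟩ : ∃ K0 : ℕ, K0 = ⌊(t : ℝ) * (m + 2 * p * (S + 1))⌋₊ := ⟨_, rfl⟩
  obtain ⟨G, hG⟩ : ∃ G : Finset (Fin q → Fin q), G = univ.filter (fun g : Fin q → Fin q =>
      (m : ℝ) / 8 ≤ ((univ.filter (fun j : Fin m => ∀ x, g x ≠ f j x)).card : ℝ)) := ⟨_, rfl⟩
  have hGc : (q : ℝ) ^ q / 8 ≤ (G.card : ℝ) := by rw [hG]; exact many_avoid q m hq hm f
  obtain ⟨V, hV⟩ : ∃ V : Finset (Fin S → Option (Fin W)), V = univ.filter (fun v =>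
    (univ.filter (fun c => v c ≠ none)).card ≤ K0) := ⟨_, rfl⟩
  obtain ⟨A, hA⟩ : ∃ A : (Fin S → Option (Fin W)) × Finset (Fin m) →
      Finset (Fin m → Fin q → Fin q), A = fun vI =>
        if (m : ℝ) / 2 ≤ vI.2.card ∧ ∀ i ∈ vI.2, k ≤ (known D m t vI.1 i).card then
          Fintype.piFinset (fun i => if i ∈ vI.2 then
            univ.filter (fun g : Fin q → Fin q => ∀ j ∈ known D m t vI.1 i, ∀ x, g x ≠ f j x)
            else univ) else ∅ := ⟨_, rfl⟩
  have hsub : Fintype.piFinset (fun _ : Fin m => G) ⊆ (V ×ˢ univ).biUnion A := by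
    intro g hg
    rw [Fintype.mem_piFinset] at hg
    obtain ⟨v, I, hv, hI, hkn, hav⟩ := exists_partial D hD h (by omega) hqm hN hm ht f hfi hprobe
      p hp hp1 hk g (fun i => by
        have h1 := hg i
        rw [hG, Finset.mem_filter] at h1
        exact h1.2)
    rw [Finset.mem_biUnion]
    refine ⟨(v, I), ?_, ?_⟩
    · rw [Finset.mem_product]
      refine ⟨?_, Finset.mem_univ _⟩
      rw [hV, Finset.mem_filter]
      exact ⟨Finset.mem_univ _, by rw [hK0]; exact hv⟩
    · rw [hA]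
      dsimp only
      rw [if_pos ⟨hI, hkn⟩, Fintype.mem_piFinset]
      intro i
      by_cases hi : i ∈ I
      · rw [if_pos hi, Finset.mem_filter]
        exact ⟨Finset.mem_univ _, hav i hi⟩
      · rw [if_neg hi]
        exact Finset.mem_univ _
  have hAc : ∀ vI, ((A vI).card : ℝ) ≤ ((q : ℝ) ^ q) ^ m * Real.exp (-((k : ℝ) * m / 4)) := by
    intro vI
    rw [hA]
    dsimp only
    split_ifs with hcond
    · obtain ⟨hI, hkn⟩ := hcond
      rw [Fintype.card_piFinset, Nat.cast_prod]
      have h1 : ∀ i ∈ (univ : Finset (Fin m)), (((if i ∈ vI.2 then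
            univ.filter (fun g : Fin q → Fin q => ∀ j ∈ known D m t vI.1 i, ∀ x, g x ≠ f j x)
            else univ).card : ℕ) : ℝ) ≤
          (q : ℝ) ^ q * (if i ∈ vI.2 then Real.exp (-((k : ℝ) / 2)) else 1) := by
        intro i _
        by_cases hi : i ∈ vI.2
        · rw [if_pos hi, if_pos hi]
          obtain ⟨J', hJ', hJc⟩ := Finset.exists_subset_card_eq (hkn i hi)
          have h2 := avoid_count q d (by omega) f hf J' (by rw [hJc]; exact hkd)
          rw [hJc] at h2
          refine le_trans ?_ h2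
          have h3 : (univ.filter (fun g : Fin q → Fin q =>
              ∀ j ∈ known D m t vI.1 i, ∀ x, g x ≠ f j x)).card ≤
              (univ.filter (fun g : Fin q → Fin q => ∀ j ∈ J', ∀ x, g x ≠ f j x)).card := by
            refine Finset.card_le_card ?_
            intro g hg
            rw [Finset.mem_filter] at hg ⊢
            exact ⟨hg.1, fun j hj => hg.2 j (hJ' hj)⟩
          exact_mod_cast h3
        · rw [if_neg hi, if_neg hi, mul_one, Finset.card_univ, Fintype.card_fun, Fintype.card_fin]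
          push_cast
          exact le_rfl
      refine (Finset.prod_le_prod (fun i _ => by positivity) h1).trans ?_
      rw [Finset.prod_mul_distrib, Finset.prod_const, Finset.card_univ, Fintype.card_fin]
      refine mul_le_mul_of_nonneg_left ?_ (by positivity)
      rw [Finset.prod_ite_mem, Finset.univ_inter, Finset.prod_const, ← Real.exp_nat_mul]
      apply Real.exp_le_exp.2
      have h4 : (0 : ℝ) ≤ k := Nat.cast_nonneg k
      nlinarith
    · rw [Finset.card_empty, Nat.cast_zero]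
      positivity
  have hVc : (V.card : ℝ) ≤ ((S : ℝ) * W + 1) ^ K0 := by
    rw [hV]
    have h1 := card_partial S W K0
    exact_mod_cast h1
  have hmain : ((q : ℝ) ^ q / 8) ^ m ≤ ((S : ℝ) * W + 1) ^ K0 * 2 ^ m *
      (((q : ℝ) ^ q) ^ m * Real.exp (-((k : ℝ) * m / 4))) := by
    have h1 : ((q : ℝ) ^ q / 8) ^ m ≤ ((Fintype.piFinset (fun _ : Fin m => G)).card : ℝ) := by
      rw [Fintype.card_piFinset, Finset.prod_const, Finset.card_univ, Fintype.card_fin]
      push_cast
      exact pow_le_pow_left₀ (by positivity) hGc m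
    have h2 : ((Fintype.piFinset (fun _ : Fin m => G)).card : ℝ) ≤
        (((V ×ˢ univ).biUnion A).card : ℝ) := by
      exact_mod_cast Finset.card_le_card hsub
    have h3 : (((V ×ˢ (univ : Finset (Finset (Fin m)))).biUnion A).card : ℝ) ≤
        ∑ vI ∈ V ×ˢ (univ : Finset (Finset (Fin m))), ((A vI).card : ℝ) := by
      exact_mod_cast Finset.card_biUnion_le
    have h4 : ∑ vI ∈ V ×ˢ (univ : Finset (Finset (Fin m))), ((A vI).card : ℝ) ≤
        ∑ _vI ∈ V ×ˢ (univ : Finset (Finset (Fin m))),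
          ((q : ℝ) ^ q) ^ m * Real.exp (-((k : ℝ) * m / 4)) :=
      Finset.sum_le_sum (fun vI _ => hAc vI)
    rw [Finset.sum_const, Finset.card_product, Finset.card_univ, Fintype.card_finset,
      Fintype.card_fin, nsmul_eq_mul] at h4
    push_cast at h4
    refine h1.trans (h2.trans (h3.trans (h4.trans ?_)))
    refine mul_le_mul_of_nonneg_right ?_ (by positivity)
    exact mul_le_mul_of_nonneg_right hVc (by positivity)
  have hmain2 : Real.exp ((k : ℝ) * m / 4) ≤ ((S : ℝ) * W + 1) ^ K0 * 16 ^ m := by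
    have h1 : ((q : ℝ) ^ q / 8) ^ m * (8 ^ m * Real.exp ((k : ℝ) * m / 4)) ≤
        ((S : ℝ) * W + 1) ^ K0 * 2 ^ m *
        (((q : ℝ) ^ q) ^ m * Real.exp (-((k : ℝ) * m / 4))) *
          (8 ^ m * Real.exp ((k : ℝ) * m / 4)) :=
      mul_le_mul_of_nonneg_right hmain (by positivity)
    have h2 : ((q : ℝ) ^ q / 8) ^ m * (8 ^ m * Real.exp ((k : ℝ) * m / 4)) =
        ((q : ℝ) ^ q) ^ m * Real.exp ((k : ℝ) * m / 4) := by
      rw [← mul_assoc, ← mul_pow]
      congr 2
      field_simp
    have h3 : ((S : ℝ) * W + 1) ^ K0 * 2 ^ m *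
        (((q : ℝ) ^ q) ^ m * Real.exp (-((k : ℝ) * m / 4))) *
          (8 ^ m * Real.exp ((k : ℝ) * m / 4)) =
        ((q : ℝ) ^ q) ^ m * (((S : ℝ) * W + 1) ^ K0 * 16 ^ m) := by
      have h4 : Real.exp (-((k : ℝ) * m / 4)) * Real.exp ((k : ℝ) * m / 4) = 1 := by
        rw [← Real.exp_add, neg_add_cancel, Real.exp_zero]
      have h5 : (16 : ℝ) ^ m = 2 ^ m * 8 ^ m := by
        rw [← mul_pow]
        norm_num
      rw [h5]
      calc ((S : ℝ) * W + 1) ^ K0 * 2 ^ m *
          (((q : ℝ) ^ q) ^ m * Real.exp (-((k : ℝ) * m / 4))) *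
          (8 ^ m * Real.exp ((k : ℝ) * m / 4)) = ((q : ℝ) ^ q) ^ m *
          (((S : ℝ) * W + 1) ^ K0 * (2 ^ m * 8 ^ m)) *
          (Real.exp (-((k : ℝ) * m / 4)) * Real.exp ((k : ℝ) * m / 4)) := by ring
        _ = _ := by rw [h4, mul_one]
    rw [h2, h3] at h1
    exact le_of_mul_le_mul_left h1 (by positivity)
  have hSW : (1 : ℝ) ≤ (S : ℝ) * W + 1 := by
    have : (0 : ℝ) ≤ (S : ℝ) * W := by positivity
    linarith
  have hlog := Real.log_le_log (Real.exp_pos _) hmain2
  rw [Real.log_exp, Real.log_mul (by positivity) (by positivity), Real.log_pow, Real.log_pow]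
    at hlog
  have hK : (K0 : ℝ) ≤ t * (m + 2 * p * (S + 1)) := by
    rw [hK0]
    exact Nat.floor_le (by positivity)
  have hl0 : 0 ≤ Real.log ((S : ℝ) * W + 1) := Real.log_nonneg hSW
  have h5 : (K0 : ℝ) * Real.log ((S : ℝ) * W + 1) ≤
      t * (m + 2 * p * (S + 1)) * Real.log ((S : ℝ) * W + 1) :=
    mul_le_mul_of_nonneg_right hK hl0
  linarith

end Pool.Agent.W964.Si
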