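import Mathlib

/-!
Many functions which agree rarely.
-/

namespace Pool.Agent.W964.Si

open Finset Polynomial

lemma exists_family (q m d : ℕ) (hq : q.Prime) (hm : m ≤ q ^ d) (hd : d < q) :
    ∃ f : Fin m → Fin q → Fin q,
      (∀ j j', j ≠ j' → (univ.filter (fun x => f j x = f j' x)).card ≤ d) ∧
        Function.Injective f := by
  classical
  have : Fact q.Prime := ⟨hq⟩
  have : NeZero q := ⟨hq.ne_zero⟩
  obtain ⟨a⟩ : Nonempty (Fin m ↪ (Fin d → ZMod q)) := by
    refine Function.Embedding.nonempty_of_card_le ?_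
    rw [Fintype.card_fun, Fintype.card_fin, Fintype.card_fin, ZMod.card]
    exact hm
  obtain ⟨e⟩ : Nonempty (Fin q ≃ ZMod q) :=
    ⟨Fintype.equivOfCardEq (by rw [Fintype.card_fin, ZMod.card])⟩
  obtain ⟨P, hP⟩ : ∃ P : Fin m → (ZMod q)[X], P = fun j => ∑ l : Fin d, C (a j l) * X ^ (l : ℕ) :=
    ⟨_, rfl⟩
  have hcoeff : ∀ j (l : Fin d), (P j).coeff l = a j l := by
    intro j l
    rw [hP]
    dsimp only
    rw [Polynomial.finsetSum_coeff, Finset.sum_eq_single l]
    · rw [Polynomial.coeff_C_mul_X_pow, if_pos rfl]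
    · intro l' _ hl'
      rw [Polynomial.coeff_C_mul_X_pow, if_neg]
      intro hcon
      exact hl' (Fin.ext hcon.symm)
    · intro hcon
      exact absurd (Finset.mem_univ _) hcon
  have hdeg : ∀ j, (P j).degree < d := by
    intro j
    rw [hP]
    dsimp only
    rw [Polynomial.degree_lt_iff_coeff_zero]
    intro n hn
    rw [Polynomial.finsetSum_coeff, Finset.sum_eq_zero]
    intro l _
    rw [Polynomial.coeff_C_mul_X_pow, if_neg]
    have := l.2
    omega
  have hag : ∀ j j', j ≠ j' →
      (univ.filter (fun x => e.symm ((P j).eval (e x)) = e.symm ((P j').eval (e x)))).card ≤ d := by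
    intro j j' hjj
    have hne : P j - P j' ≠ 0 := by
      intro hcon
      apply hjj
      apply a.injective
      funext l
      rw [← hcoeff j l, ← hcoeff j' l, sub_eq_zero.1 hcon]
    have hdeg2 : (P j - P j').degree < d :=
      lt_of_le_of_lt (Polynomial.degree_sub_le _ _) (max_lt (hdeg j) (hdeg j'))
    have hroots : (P j - P j').roots.toFinset.card ≤ d := by
      refine (Multiset.toFinset_card_le _).trans ((Polynomial.card_roots' _).trans ?_)
      exact le_of_lt ((Polynomial.natDegree_lt_iff_degree_lt hne).2 hdeg2)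
    refine le_trans ?_ hroots
    refine Finset.card_le_card_of_injOn (fun x => e x) ?_ (fun x _ y _ hxy => e.injective hxy)
    intro x hx
    have h1 := (Finset.mem_filter.1 hx).2
    have h2 := e.symm.injective h1
    rw [Finset.mem_coe, Multiset.mem_toFinset, Polynomial.mem_roots hne, Polynomial.IsRoot.def,
      Polynomial.eval_sub, h2, sub_self]
  refine ⟨fun j x => e.symm ((P j).eval (e x)), hag, ?_⟩
  intro j j' hjj
  by_contra hne
  have h1 := hag j j' hne
  have h2 : univ.filter (fun x => e.symm ((P j).eval (e x)) = e.symm ((P j').eval (e x))) =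
      univ := by
    rw [Finset.filter_eq_self]
    intro x _
    exact congrFun hjj x
  rw [h2, Finset.card_univ, Fintype.card_fin] at h1
  omega

end Pool.Agent.W964.Si
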