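import Mathlib
import Pool.Agent.W964.Si.Count
import Pool.Agent.W964.Si.Poly

/-!
The lower bound for the space.
-/

set_option linter.unusedSectionVars false

namespace Pool.Agent.W964.Si

open Finset

lemma log_sixteen : Real.log 16 < 3 := by
  have h1 : (16 : ℝ) = 2 ^ (4 : ℕ) := by norm_num
  rw [h1, Real.log_pow]
  have := Real.log_two_lt_d9
  push_cast
  linarith

lemma base_le {x c : ℝ} {t : ℕ} (ht : 1 ≤ t) (hc : 1 ≤ c) (h : x ^ t < c) :
    x ≤ c := by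
  rcases le_or_gt x 1 with h1 | h1
  · linarith
  · have h2 : x ^ 1 ≤ x ^ t := pow_le_pow_right₀ h1.le ht
    rw [pow_one] at h2
    linarith

theorem bound_nat {N S W b t L : ℕ} (hN : 2 ≤ N) (ht : 1 ≤ t) (hW : W ≤ N ^ b)
    (hL : L = Nat.log 2 N + 1) (D : DataStructure N S W) (hD : D.Correct)
    (hprobe : ∀ F, Admissible N F → ∀ (i j : ℕ) (hi : i < F.length) (hj : j < F.length),
      F[i] ∩ F[j] = ∅ → (D.query F.length i j).probes (D.memory F) ≤ t) :
    (N : ℝ) ^ (1 + 1 / (t : ℝ)) ≤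
      603979776 * ((t : ℝ) ^ 5 * ((b : ℝ) + 3) ^ 4 * (L : ℝ) ^ 6 * (N + S)) := by
  have hNR : (2 : ℝ) ≤ N := by exact_mod_cast hN
  have htR : (1 : ℝ) ≤ t := by exact_mod_cast ht
  have hL2 : 2 ≤ L := by
    have : 1 ≤ Nat.log 2 N := Nat.log_pos (by norm_num) hN
    omega
  have hL2R : (2 : ℝ) ≤ L := by exact_mod_cast hL2
  have hNL : N < 2 ^ L := by
    rw [hL]
    exact Nat.lt_pow_succ_log_self (by norm_num) N
  obtain ⟨B, hB⟩ : ∃ B : ℕ, B = b + 3 := ⟨_, rfl⟩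
  have hB3 : 3 ≤ B := by omega
  have hB3R : (3 : ℝ) ≤ B := by exact_mod_cast hB3
  have hBR : (b : ℝ) + 3 = B := by rw [hB]; push_cast; ring
  rw [hBR]
  have hSR : (0 : ℝ) ≤ S := Nat.cast_nonneg S
  have hsplit : (N : ℝ) ^ (1 + 1 / (t : ℝ)) = N * (N : ℝ) ^ (1 / (t : ℝ)) := by
    rw [Real.rpow_add (by linarith), Real.rpow_one]
  have hyN : (N : ℝ) ^ (1 / (t : ℝ)) ≤ N := by
    have h1 : (N : ℝ) ^ (1 / (t : ℝ)) ≤ (N : ℝ) ^ (1 : ℝ) := by
      apply Real.rpow_le_rpow_of_exponent_le (by linarith)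
      rw [div_le_one (by linarith)]
      exact htR
    rwa [Real.rpow_one] at h1
  have htrivial : (N : ℝ) ^ (1 + 1 / (t : ℝ)) ≤ N * N := by
    rw [hsplit]
    exact mul_le_mul_of_nonneg_left hyN (by linarith)
  have ht5 : (1 : ℝ) ≤ (t : ℝ) ^ 5 := one_le_pow₀ htR
  have hB4 : (1 : ℝ) ≤ (B : ℝ) ^ 4 := one_le_pow₀ (by linarith)
  have hL6 : (1 : ℝ) ≤ (L : ℝ) ^ 6 := one_le_pow₀ (by linarith)
  have hprod : (1 : ℝ) ≤ (t : ℝ) ^ 5 * (B : ℝ) ^ 4 * (L : ℝ) ^ 6 :=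
    one_le_mul_of_one_le_of_one_le (one_le_mul_of_one_le_of_one_le ht5 hB4) hL6
  rcases Nat.lt_or_ge (N ^ 2) S with hS | hS
  · have h1 : (N : ℝ) * N ≤ S := by
      have h2 : (N : ℝ) ^ 2 ≤ S := by exact_mod_cast hS.le
      nlinarith
    have h3 : (N : ℝ) + S ≤ (t : ℝ) ^ 5 * (B : ℝ) ^ 4 * (L : ℝ) ^ 6 * (N + S) :=
      le_mul_of_one_le_left (by positivity) hprod
    linarith
  -- the logarithm
  have hlog : Real.log ((S : ℝ) * W + 1) ≤ B * L := by
    have h1 : S * W + 1 ≤ N ^ B := by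
      have h2 : S * W ≤ N ^ 2 * N ^ b := Nat.mul_le_mul hS hW
      have h3 : N ^ 2 * N ^ b = N ^ (b + 2) := by ring
      have h4 : N ^ B = N ^ (b + 2) * N := by rw [hB]; ring
      have h5 : 1 ≤ N ^ (b + 2) := Nat.one_le_pow _ _ (by omega)
      have h6 : N ^ (b + 2) * 2 ≤ N ^ (b + 2) * N := Nat.mul_le_mul_left _ hN
      omega
    have h2 : ((S : ℝ) * W + 1) ≤ (N : ℝ) ^ B := by exact_mod_cast h1
    have h3 : (N : ℝ) ≤ 2 ^ L := by exact_mod_cast hNL.le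
    have h4 := Real.log_le_log (by positivity) h2
    rw [Real.log_pow] at h4
    have h5 := Real.log_le_log (by positivity) h3
    rw [Real.log_pow] at h5
    have h6 := Real.log_two_lt_d9
    have h7 : (L : ℝ) * Real.log 2 ≤ L := by nlinarith
    have h8 : (B : ℝ) * Real.log N ≤ B * L :=
      mul_le_mul_of_nonneg_left (h5.trans h7) (by linarith)
    linarith
  obtain ⟨k, hk⟩ : ∃ k : ℕ, k = 4 * (4 + t * B * L) := ⟨_, rfl⟩
  have hkR : (k : ℝ) = 4 * (4 + t * B * L) := by rw [hk]; push_cast; ring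
  have htB : (3 : ℝ) ≤ t * B := by nlinarith
  have htBL : (6 : ℝ) ≤ t * B * L := by nlinarith
  have hk1 : (k : ℝ) ≤ 8 * (t * B * L) := by rw [hkR]; linarith
  have hkpos : 1 ≤ k := by omega
  have hQ0 : 2 * (k * L) ≠ 0 := by positivity
  obtain ⟨q, hqp, hq1, hq2⟩ := Nat.exists_prime_lt_and_le_two_mul (2 * (k * L)) hQ0
  have hq4 : 4 ≤ q := by
    have : 2 ≤ k * L := by nlinarith
    omega
  have hq4R : (4 : ℝ) ≤ q := by exact_mod_cast hq4
  have hqR : (q : ℝ) ≤ 32 * (t * B * L ^ 2) := by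
    have h1 : (q : ℝ) ≤ 2 * (2 * (k * L)) := by exact_mod_cast hq2
    have h2 : (k : ℝ) * L ≤ 8 * (t * B * L) * L := mul_le_mul_of_nonneg_right hk1 (by linarith)
    nlinarith
  have hq2R : (q : ℝ) ^ 2 ≤ 1024 * (t ^ 2 * B ^ 2 * L ^ 4) := by
    have h1 := pow_le_pow_left₀ (by linarith : (0 : ℝ) ≤ q) hqR 2
    refine h1.trans (le_of_eq ?_)
    ring
  obtain ⟨m, hm⟩ : ∃ m : ℕ, m = N / (2 * q + 1) := ⟨_, rfl⟩
  have hmN : m * (2 * q + 1) ≤ N := by rw [hm]; exact Nat.div_mul_le_self N (2 * q + 1)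
  have hNm : N < (m + 1) * (2 * q + 1) := by
    rw [hm]
    have h1 := Nat.lt_mul_div_succ N (show 0 < 2 * q + 1 by omega)
    rw [mul_comm]
    exact h1
  have hNmR : (N : ℝ) ≤ (m + 1) * (2 * q + 1) := by exact_mod_cast hNm.le
  rcases Nat.lt_or_ge (2 * m) q with hqm | hqm
  · -- small N
    have h1 : (m : ℝ) + 1 ≤ q := by
      have : m + 1 ≤ q := by omega
      exact_mod_cast this
    have h2 : (N : ℝ) ≤ q * (3 * q) := by
      refine hNmR.trans ?_
      apply mul_le_mul h1 (by linarith) (by linarith) (by linarith)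
    have h3 : (N : ℝ) ≤ 3072 * (t ^ 2 * B ^ 2 * L ^ 4) := by nlinarith
    have h4 : (t : ℝ) ^ 2 * B ^ 2 * L ^ 4 ≤ t ^ 5 * B ^ 4 * L ^ 6 := by
      apply mul_le_mul _ _ (by positivity) (by positivity)
      · apply mul_le_mul _ _ (by positivity) (by positivity)
        · exact pow_le_pow_right₀ htR (by norm_num)
        · exact pow_le_pow_right₀ (by linarith) (by norm_num)
      · exact pow_le_pow_right₀ (by linarith) (by norm_num)
    have h5 : (N : ℝ) ≤ 603979776 * (t ^ 5 * B ^ 4 * L ^ 6) := by linarith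
    refine htrivial.trans ?_
    have h6 : (N : ℝ) * N ≤ 603979776 * (t ^ 5 * B ^ 4 * L ^ 6) * (N + S) :=
      mul_le_mul h5 (by linarith) (by linarith) (by positivity)
    linarith
  -- the main case
  have hm1 : 1 ≤ m := by omega
  have hmR : (1 : ℝ) ≤ m := by exact_mod_cast hm1
  have hN6 : (N : ℝ) ≤ 6 * (m * q) := by
    have h1 : ((m : ℝ) + 1) * (2 * q + 1) ≤ (2 * m) * (3 * q) :=
      mul_le_mul (by linarith) (by linarith) (by linarith) (by linarith)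
    linarith
  have hfit : q * q + m ≤ N := by
    have : q * q + m ≤ m * (2 * q + 1) := by nlinarith
    omega
  have hmq : m ≤ q ^ L := by
    have h1 : m ≤ N := by
      rw [hm]
      exact Nat.div_le_self _ _
    have h2 : 2 ^ L ≤ q ^ L := Nat.pow_le_pow_left (by omega) L
    omega
  have hLq : L < q := by nlinarith
  obtain ⟨f, hf, hfi⟩ := exists_family q m L hqp hmq hLq
  obtain ⟨Z, hZ⟩ : ∃ Z : ℝ, Z = 2 * t * (S + 1) * (B * L) := ⟨_, rfl⟩
  have hZ0 : 0 < Z := by rw [hZ]; positivity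
  obtain ⟨p, hp⟩ : ∃ p : ℝ, p = m / (m + Z) := ⟨_, rfl⟩
  have hp0 : 0 < p := by rw [hp]; positivity
  have hp1 : p ≤ 1 := by
    rw [hp, div_le_one (by linarith)]
    linarith
  have hpZ : p * Z ≤ m := by
    rw [hp, div_mul_eq_mul_div, div_le_iff₀ (by linarith)]
    exact mul_le_mul_of_nonneg_left (by linarith) (by linarith)
  have hpm : p * (m + Z) = m := by
    rw [hp]
    field_simp
  have hlt : (p / (64 * t)) ^ t * m < 8 * k := by
    by_contra hcon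
    rw [not_lt] at hcon
    have h1 := count_bound D hD hfit hq4 hqm hmN hm1 ht f hf hfi hprobe (by omega) p hp0 hp1 hcon
    have h2 : (t : ℝ) * (m + 2 * p * (S + 1)) * Real.log ((S : ℝ) * W + 1) ≤
        t * (m + 2 * p * (S + 1)) * (B * L) := mul_le_mul_of_nonneg_left hlog (by positivity)
    have h3 : (t : ℝ) * (m + 2 * p * (S + 1)) * (B * L) = t * B * L * m + p * Z := by
      rw [hZ]
      ring
    have h4 : (m : ℝ) * Real.log 16 < m * 3 :=
      mul_lt_mul_of_pos_left log_sixteen (by linarith)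
    have h5 : (k : ℝ) * m / 4 = 4 * m + t * B * L * m := by
      rw [hkR]
      ring
    linarith
  obtain ⟨y, hy⟩ : ∃ y : ℝ, y = (N : ℝ) ^ (1 / (t : ℝ)) := ⟨_, rfl⟩
  have hy0 : 0 ≤ y := by rw [hy]; positivity
  have hyt : y ^ t = N := by
    rw [hy, one_div, Real.rpow_inv_natCast_pow (by linarith) (by omega)]
  have hkR1 : (1 : ℝ) ≤ k := by exact_mod_cast hkpos
  have hx : (p * y / (64 * t)) ^ t < 48 * (k * q) := by
    have h1 : (p * y / (64 * t)) ^ t = (p / (64 * t)) ^ t * N := by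
      rw [← hyt, ← mul_pow]
      congr 1
      ring
    have h2 : (p / (64 * (t : ℝ))) ^ t * N ≤ (p / (64 * t)) ^ t * (6 * (m * q)) :=
      mul_le_mul_of_nonneg_left hN6 (by positivity)
    have h3 : (p / (64 * (t : ℝ))) ^ t * m * (6 * q) < 8 * k * (6 * q) :=
      mul_lt_mul_of_pos_right hlt (by linarith)
    rw [h1]
    nlinarith
  have hkq : (1 : ℝ) ≤ k * q := one_le_mul_of_one_le_of_one_le hkR1 (by linarith)
  have hx2 := base_le ht (by linarith) hx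
  rw [div_le_iff₀ (by positivity)] at hx2
  -- p y ≤ 48 k q 64 t
  have h3 : m * y ≤ 3072 * (k * q * t) * (m + Z) := by
    have h4 : p * y * (m + Z) ≤ 48 * (k * q) * (64 * t) * (m + Z) :=
      mul_le_mul_of_nonneg_right hx2 (by linarith)
    have h5 : p * y * (m + Z) = m * y := by
      have h6 : p * y * (m + Z) = p * (m + Z) * y := by ring
      rw [h6, hpm]
    linarith
  have hmNR : (m : ℝ) ≤ N := by
    have : m ≤ N := by
      rw [hm]
      exact Nat.div_le_self _ _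
    exact_mod_cast this
  have h4 : (m : ℝ) + Z ≤ 4 * (t * B * L) * (N + S) := by
    have h5 : (N : ℝ) ≤ 2 * (t * B * L) * N := le_mul_of_one_le_left (by linarith) (by linarith)
    have h6 : Z = 2 * (t * B * L) * (S + 1) := by
      rw [hZ]
      ring
    have h7 : 2 * ((t : ℝ) * B * L) * (N + (S + 1)) ≤ 2 * (t * B * L) * (2 * (N + S)) :=
      mul_le_mul_of_nonneg_left (by linarith) (by linarith)
    linarith
  have h5 : (N : ℝ) * y ≤ 18432 * (k * q ^ 2 * t) * (m + Z) := by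
    have h6 : (N : ℝ) * y ≤ 6 * (m * q) * y := mul_le_mul_of_nonneg_right hN6 hy0
    have h7 : 6 * (q : ℝ) * (m * y) ≤ 6 * q * (3072 * (k * q * t) * (m + Z)) :=
      mul_le_mul_of_nonneg_left h3 (by linarith)
    calc (N : ℝ) * y ≤ 6 * (m * q) * y := h6
      _ = 6 * q * (m * y) := by ring
      _ ≤ 6 * q * (3072 * (k * q * t) * (m + Z)) := h7
      _ = _ := by ring
  have h6 : (k : ℝ) * q ^ 2 ≤ 8 * (t * B * L) * (1024 * (t ^ 2 * B ^ 2 * L ^ 4)) :=
    mul_le_mul hk1 hq2R (by positivity) (by positivity)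
  have h7 : (k : ℝ) * q ^ 2 * t ≤ 8 * (t * B * L) * (1024 * (t ^ 2 * B ^ 2 * L ^ 4)) * t :=
    mul_le_mul_of_nonneg_right h6 (by linarith)
  have h8 : 18432 * ((k : ℝ) * q ^ 2 * t) * (m + Z) ≤
      18432 * (8 * (t * B * L) * (1024 * (t ^ 2 * B ^ 2 * L ^ 4)) * t) *
        (4 * (t * B * L) * (N + S)) :=
    mul_le_mul (by linarith) h4 (by linarith) (by positivity)
  rw [hsplit, ← hy]
  refine h5.trans (h8.trans (le_of_eq ?_))
  ring

theorem bound {N S W b t : ℕ} (hN : 2 ≤ N) (ht : 1 ≤ t) (hW : W ≤ N ^ b)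
    (D : DataStructure N S W) (hD : D.Correct)
    (hprobe : ∀ F, Admissible N F → ∀ (i j : ℕ) (hi : i < F.length) (hj : j < F.length),
      F[i] ∩ F[j] = ∅ → (D.query F.length i j).probes (D.memory F) ≤ t) :
    (N : ℝ) ^ (1 + 1 / (t : ℝ)) ≤
      10 ^ 11 * (t : ℝ) ^ 5 * ((b : ℝ) + 3) ^ 4 * (Real.logb 2 N) ^ 6 * (N + S) := by
  have hNR : (2 : ℝ) ≤ N := by exact_mod_cast hN
  have h1 := bound_nat hN ht hW rfl D hD hprobe
  have h2 : ((Nat.log 2 N : ℕ) : ℝ) ≤ Real.logb 2 N := by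
    rw [Real.le_logb_iff_rpow_le (by norm_num) (by linarith), Real.rpow_natCast]
    have := Nat.pow_log_le_self 2 (show N ≠ 0 by omega)
    exact_mod_cast this
  have h3 : (1 : ℝ) ≤ Real.logb 2 N := by
    rw [Real.le_logb_iff_rpow_le (by norm_num) (by linarith), Real.rpow_one]
    exact hNR
  have h4 : (((Nat.log 2 N + 1 : ℕ)) : ℝ) ≤ 2 * Real.logb 2 N := by
    push_cast
    linarith
  have h5 : (((Nat.log 2 N + 1 : ℕ)) : ℝ) ^ 6 ≤ (2 * Real.logb 2 N) ^ 6 :=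
    pow_le_pow_left₀ (by positivity) h4 6
  have h6 : (2 * Real.logb 2 N) ^ 6 = 64 * Real.logb 2 N ^ 6 := by ring
  rw [h6] at h5
  have h7 : (0 : ℝ) ≤ (t : ℝ) ^ 5 * ((b : ℝ) + 3) ^ 4 := by positivity
  have h8 : (0 : ℝ) ≤ (N : ℝ) + S := by positivity
  have h9 : (t : ℝ) ^ 5 * ((b : ℝ) + 3) ^ 4 * (((Nat.log 2 N + 1 : ℕ)) : ℝ) ^ 6 * (N + S) ≤
      (t : ℝ) ^ 5 * ((b : ℝ) + 3) ^ 4 * (64 * Real.logb 2 N ^ 6) * (N + S) :=
    mul_le_mul_of_nonneg_right (mul_le_mul_of_nonneg_left h5 h7) h8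
  have h10 : (0 : ℝ) ≤ (t : ℝ) ^ 5 * ((b : ℝ) + 3) ^ 4 * Real.logb 2 N ^ 6 * (N + S) := by
    have : (0 : ℝ) ≤ Real.logb 2 N ^ 6 := by positivity
    positivity
  linarith

end Pool.Agent.W964.Si
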