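import Mathlib
import Pool.Agent.W964.Si.Bound

/-!
The lower bound for the space, for queries with constant and with slightly growing time.
-/

namespace Pool.Agent.W964.Si

open Finset

lemma probes_le {N S W t : ℕ} {C T : ℝ} (hCT : C * T < t + 1) (D : DataStructure N S W)
    (hF : D.Fast C T) :
    ∀ F, Admissible N F → ∀ (i j : ℕ) (hi : i < F.length) (hj : j < F.length),
      F[i] ∩ F[j] = ∅ → (D.query F.length i j).probes (D.memory F) ≤ t := by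
  intro F hadm i j hi hj he
  have h1 := hF F hadm i j hi hj
  rw [he, Finset.card_empty, Nat.cast_zero, add_zero] at h1
  have h2 : ((D.query F.length i j).probes (D.memory F) : ℝ) < t + 1 := lt_of_le_of_lt h1 hCT
  have h3 : (D.query F.length i j).probes (D.memory F) < t + 1 := by exact_mod_cast h2
  omega

theorem tradeoff {N S W b t : ℕ} {C T : ℝ} (hN : 2 ≤ N) (ht : 1 ≤ t) (hCT : C * T < t + 1)
    (hW : W ≤ N ^ b) (D : DataStructure N S W) (hD : D.Correct) (hF : D.Fast C T) :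
    (N : ℝ) ^ (1 + 1 / (t : ℝ)) ≤
      10 ^ 11 * (t : ℝ) ^ 5 * ((b : ℝ) + 3) ^ 4 * (Real.logb 2 N) ^ 6 * (N + S) :=
  bound hN ht hW D hD (probes_le hCT D hF)

theorem superlinear (b : ℕ) : ∃ N₀ : ℕ, ∀ N ≥ N₀, ∀ (S W t : ℕ) (C T : ℝ), 1 ≤ t →
    C * T < t + 1 → 13 * (t * Real.log (Real.log N)) ≤ Real.log N → W ≤ N ^ b →
      ∀ D : DataStructure N S W, D.Correct → D.Fast C T →
        (N : ℝ) ^ (1 + 1 / (t : ℝ)) ≤ S * (Real.log N) ^ 12 := by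
  obtain ⟨K, hK⟩ : ∃ K : ℝ, K = 128 * 10 ^ 11 * ((b : ℝ) + 3) ^ 4 := ⟨_, rfl⟩
  refine ⟨⌈Real.exp K⌉₊, ?_⟩
  intro N hN S W t C T ht hCT hll hW D hD hF
  have hb : (81 : ℝ) ≤ ((b : ℝ) + 3) ^ 4 := by
    have h1 : (3 : ℝ) ≤ (b : ℝ) + 3 := by
      have : (0 : ℝ) ≤ b := Nat.cast_nonneg b
      linarith
    have h2 := pow_le_pow_left₀ (by norm_num : (0 : ℝ) ≤ 3) h1 4
    linarith
  have hK1 : (1000 : ℝ) ≤ K := by rw [hK]; nlinarith
  have hNe : Real.exp K ≤ N := (Nat.le_ceil _).trans (by exact_mod_cast hN)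
  have hNpos : (0 : ℝ) < N := lt_of_lt_of_le (Real.exp_pos _) hNe
  obtain ⟨X, hX⟩ : ∃ X : ℝ, X = Real.log N := ⟨_, rfl⟩
  have hKX : K ≤ X := by
    rw [hX, Real.le_log_iff_exp_le hNpos]
    exact hNe
  have hX0 : (0 : ℝ) < X := by linarith
  have hN2 : 2 ≤ N := by
    have h1 : (2 : ℝ) ≤ N := by
      have := Real.add_one_le_exp K
      linarith
    exact_mod_cast h1
  have htR : (1 : ℝ) ≤ t := by exact_mod_cast ht
  have hmain := tradeoff hN2 ht hCT hW D hD hF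
  rw [← hX] at hll ⊢
  have hlogX : 1 ≤ Real.log X := by
    rw [Real.le_log_iff_exp_le hX0]
    have := Real.exp_one_lt_d9
    linarith
  have htX : (t : ℝ) ≤ X := by nlinarith
  have hlogb : Real.logb 2 N ≤ 2 * X := by
    rw [Real.logb, ← hX, div_le_iff₀ (Real.log_pos (by norm_num))]
    have := Real.log_two_gt_d9
    nlinarith
  have hlogb0 : 0 ≤ Real.logb 2 N := by
    apply Real.logb_nonneg (by norm_num)
    have : (2 : ℝ) ≤ N := by exact_mod_cast hN2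
    linarith
  have h1 : Real.logb 2 N ^ 6 ≤ (2 * X) ^ 6 := pow_le_pow_left₀ hlogb0 hlogb 6
  have h2 : (t : ℝ) ^ 5 ≤ X ^ 5 := pow_le_pow_left₀ (by linarith) htX 5
  have h3 : (t : ℝ) ^ 5 * Real.logb 2 N ^ 6 ≤ X ^ 5 * (2 * X) ^ 6 :=
    mul_le_mul h2 h1 (by positivity) (by positivity)
  have hS0 : (0 : ℝ) ≤ S := Nat.cast_nonneg S
  have h4 : 10 ^ 11 * (t : ℝ) ^ 5 * ((b : ℝ) + 3) ^ 4 * Real.logb 2 N ^ 6 ≤ X ^ 12 / 2 := by
    have h5 : 10 ^ 11 * ((b : ℝ) + 3) ^ 4 * ((t : ℝ) ^ 5 * Real.logb 2 N ^ 6) ≤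
        10 ^ 11 * ((b : ℝ) + 3) ^ 4 * (X ^ 5 * (2 * X) ^ 6) :=
      mul_le_mul_of_nonneg_left h3 (by positivity)
    have h6 : 10 ^ 11 * ((b : ℝ) + 3) ^ 4 * (X ^ 5 * (2 * X) ^ 6) = K * X ^ 11 / 2 := by
      rw [hK]
      ring
    have h7 : K * X ^ 11 ≤ X * X ^ 11 := mul_le_mul_of_nonneg_right hKX (by positivity)
    have h8 : X * X ^ 11 = X ^ 12 := by ring
    have h9 : 10 ^ 11 * (t : ℝ) ^ 5 * ((b : ℝ) + 3) ^ 4 * Real.logb 2 N ^ 6 =
        10 ^ 11 * ((b : ℝ) + 3) ^ 4 * ((t : ℝ) ^ 5 * Real.logb 2 N ^ 6) := by ring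
    rw [h9]
    linarith
  have h5 : (N : ℝ) ^ (1 + 1 / (t : ℝ)) ≤ X ^ 12 / 2 * (N + S) :=
    hmain.trans (mul_le_mul_of_nonneg_right h4 (by positivity))
  have h6 : X ^ 12 ≤ (N : ℝ) ^ (1 / (t : ℝ)) := by
    have h7 : (N : ℝ) ^ (1 / (t : ℝ)) = Real.exp (X / t) := by
      rw [Real.rpow_def_of_pos hNpos, ← hX]
      congr 1
      ring
    have h8 : X ^ 13 = Real.exp (13 * Real.log X) := by
      rw [show (13 : ℝ) = ((13 : ℕ) : ℝ) by norm_num, Real.exp_nat_mul, Real.exp_log hX0]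
    have h9 : X ^ 12 ≤ X ^ 13 := pow_le_pow_right₀ (by linarith) (by norm_num)
    have h10 : Real.exp (13 * Real.log X) ≤ Real.exp (X / t) := by
      apply Real.exp_le_exp.2
      rw [le_div_iff₀ (by linarith)]
      linarith
    rw [h7]
    linarith
  have h7 : (N : ℝ) ^ (1 + 1 / (t : ℝ)) = N * (N : ℝ) ^ (1 / (t : ℝ)) := by
    rw [Real.rpow_add hNpos, Real.rpow_one]
  have h8 : X ^ 12 * N ≤ (N : ℝ) ^ (1 / (t : ℝ)) * N := mul_le_mul_of_nonneg_right h6 hNpos.le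
  rw [h7] at h5 ⊢
  linarith

end Pool.Agent.W964.Si
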